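import Pool.Agent.W259.Nona.Glob

set_option autoImplicit false

open Real Set Metric MeasureTheory

namespace Pool.Agent.W259.Nona

open Pool.Agent.Helper658 (dist_sq circ_identity exists_generic)

theorem vol_ball (r : ℝ) (hr : 0 ≤ r) :
    volume (closedBall (0 : E2) r) = ENNReal.ofReal (π * r ^ 2) := by
  rw [EuclideanSpace.volume_closedBall_fin_two, ← ENNReal.ofReal_pow hr,
    ← ENNReal.ofReal_mul (by positivity), mul_comm]

/-- the triangle has a circumcentre in the ball of radius `w` -/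
def Win (w : ℝ) (x : E2 × E2 × E2) : Prop :=
  ∃ o : E2, ∃ r : ℝ, r ≤ 2.13 ∧ dist x.1 o = r ∧ dist x.2.1 o = r ∧ dist x.2.2 o = r ∧ ‖o‖ ≤ w

theorem win_rot (w : ℝ) (x : E2 × E2 × E2) : Win w x ↔ Win w (rot x) := by
  unfold Win rot
  simp only [Equiv.coe_fn_mk]
  constructor
  · rintro ⟨o, r, h0, h1, h2, h3, h4⟩; exact ⟨o, r, h0, h2, h3, h1, h4⟩
  · rintro ⟨o, r, h0, h1, h2, h3, h4⟩; exact ⟨o, r, h0, h3, h1, h2, h4⟩

theorem delTri_rot' (F : Finset E2) (R : ℝ) (a b c : E2) :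
    DelTri F R a b c ↔ DelTri F R b c a := by
  unfold DelTri
  have e : area3 b c a = area3 a b c := by unfold area3; ring
  rw [e]
  constructor
  · rintro ⟨ha, hb, hc, hK, o, r, hr, h1, h2, h3, h4⟩
    exact ⟨hb, hc, ha, hK, o, r, hr, h2, h3, h1, h4⟩
  · rintro ⟨ha, hb, hc, hK, o, r, hr, h1, h2, h3, h4⟩
    exact ⟨hc, ha, hb, hK, o, r, hr, h3, h1, h2, h4⟩

open Classical in
/-- all ordered Delaunay triangles -/
noncomputable def OO (F : Finset E2) : Finset (E2 × E2 × E2) :=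
  (F ×ˢ (F ×ˢ F)).filter (fun x => DelTri F 2.13 x.1 x.2.1 x.2.2)

open Classical in
theorem mem_OO (F : Finset E2) (x : E2 × E2 × E2) : x ∈ OO F ↔ DelTri F 2.13 x.1 x.2.1 x.2.2 := by
  unfold OO
  rw [Finset.mem_filter]
  constructor
  · exact fun h => h.2
  · intro h
    refine ⟨?_, h⟩
    rw [Finset.mem_product, Finset.mem_product]
    exact ⟨h.1, h.2.1, h.2.2.1⟩

theorem delTri_ne (F : Finset E2) (R : ℝ) (a b c : E2) (h : DelTri F R a b c) :
    a ≠ b ∧ b ≠ c ∧ c ≠ a := by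
  have hK := h.2.2.2.1
  refine ⟨?_, ?_, ?_⟩
  · rintro rfl
    unfold area3 at hK; simp at hK
  · rintro rfl
    have : area3 a b b = 0 := by unfold area3; ring
    linarith
  · rintro rfl
    have : area3 c b c = 0 := by unfold area3; ring
    linarith

/-- the hull of a triangle lies in the ball around the circumcentre -/
theorem hull_sub (o a b c : E2) (r : ℝ) (h1 : dist a o = r) (h2 : dist b o = r)
    (h3 : dist c o = r) : convexHull ℝ {a, b, c} ⊆ closedBall o r := by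
  apply convexHull_min _ (convex_closedBall o r)
  rintro x hx
  simp only [mem_insert_iff, mem_singleton_iff] at hx
  rw [mem_closedBall]
  rcases hx with rfl | rfl | rfl
  · exact h1.le
  · exact h2.le
  · exact h3.le

/-- lower bound for the area of a triangle with sides at least two -/
theorem area_lower (F : Finset E2) (hsep : ∀ a ∈ F, ∀ b ∈ F, a ≠ b → 2 ≤ dist a b) (a b c : E2)
    (h : DelTri F 2.13 a b c) : 0.9 ≤ area3 a b c := by
  obtain ⟨n1, n2, n3⟩ := delTri_ne F _ a b c h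
  obtain ⟨ha, hb, hc, hK, o, r, hr, h1, h2, h3, h4⟩ := h
  have d1 := hsep a ha b hb n1
  have d2 := hsep b hb c hc n2
  have d3 := hsep c hc a ha n3
  have e1 : 4 ≤ (a 0 - b 0) ^ 2 + (a 1 - b 1) ^ 2 := by
    rw [← dist_sq]; nlinarith
  have e2 : 4 ≤ (b 0 - c 0) ^ 2 + (b 1 - c 1) ^ 2 := by
    rw [← dist_sq]; nlinarith
  have e3 : 4 ≤ (c 0 - a 0) ^ 2 + (c 1 - a 1) ^ 2 := by
    rw [← dist_sq]; nlinarith
  have hr0 : 0 ≤ r := by rw [← h1]; exact dist_nonneg
  have ea : (a 0 - o 0) ^ 2 + (a 1 - o 1) ^ 2 = r ^ 2 := by rw [← dist_sq, h1]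
  have eb : (b 0 - o 0) ^ 2 + (b 1 - o 1) ^ 2 = r ^ 2 := by rw [← dist_sq, h2]
  have ec : (c 0 - o 0) ^ 2 + (c 1 - o 1) ^ 2 = r ^ 2 := by rw [← dist_sq, h3]
  have hcirc := circ_identity _ _ _ _ _ _ _ ea eb ec
  have hprod : ((a 0 - b 0) ^ 2 + (a 1 - b 1) ^ 2) * ((b 0 - c 0) ^ 2 + (b 1 - c 1) ^ 2) *
      ((c 0 - a 0) ^ 2 + (c 1 - a 1) ^ 2) = 16 * (area3 a b c) ^ 2 * r ^ 2 := by
    have e1 : ((a 0 - b 0) ^ 2 + (a 1 - b 1) ^ 2) * ((b 0 - c 0) ^ 2 + (b 1 - c 1) ^ 2) *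
      ((c 0 - a 0) ^ 2 + (c 1 - a 1) ^ 2)
      = ((a 0 - o 0 - (b 0 - o 0)) ^ 2 + (a 1 - o 1 - (b 1 - o 1)) ^ 2) *
      ((b 0 - o 0 - (c 0 - o 0)) ^ 2 + (b 1 - o 1 - (c 1 - o 1)) ^ 2) *
      ((c 0 - o 0 - (a 0 - o 0)) ^ 2 + (c 1 - o 1 - (a 1 - o 1)) ^ 2) := by ring
    rw [e1, ← hcirc]
    unfold area3
    ring
  generalize area3 a b c = K at *
  generalize (a 0 - b 0) ^ 2 + (a 1 - b 1) ^ 2 = x at *
  generalize (b 0 - c 0) ^ 2 + (b 1 - c 1) ^ 2 = y at *
  generalize (c 0 - a 0) ^ 2 + (c 1 - a 1) ^ 2 = z at *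
  have p1 : 64 ≤ x * y * z := by
    have : 16 ≤ x * y := by nlinarith only [e1, e2]
    nlinarith only [this, e3]
  have p2 : r ^ 2 ≤ 2.13 ^ 2 := pow_le_pow_left₀ hr0 hr 2
  have p3 : K ^ 2 * r ^ 2 ≤ K ^ 2 * 2.13 ^ 2 := mul_le_mul_of_nonneg_left p2 (sq_nonneg K)
  have p4 : 0.9 ^ 2 ≤ K ^ 2 := by
    rw [hprod] at p1
    norm_num at p3 ⊢
    linarith only [p1, p3]
  exact le_of_sq_le_sq p4 hK.le

open Classical in
/-- the edge sum over a rotation invariant subset of the Delaunay triangles is at most the number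
of its directed edges whose reversal is not an edge -/
theorem edge_sum (hU : UniqStmt) (F : Finset E2) (hG : Gen F) (E : E2 → E2 → ℝ)
    (hanti : ∀ a b, E a b = -E b a) (hb : ∀ a b, |E a b| ≤ 1) (O : Finset (E2 × E2 × E2))
    (hO : O ⊆ OO F) :
    -(((O.image (fun x => (x.1, x.2.1))).filter
      (fun e => (e.2, e.1) ∉ O.image (fun x => (x.1, x.2.1)))).card : ℝ) ≤ ∑ x ∈ O, E x.1 x.2.1 := by
  set Ed := O.image (fun x : E2 × E2 × E2 => (x.1, x.2.1)) with hEd
  have hinj : ∀ x ∈ O, ∀ y ∈ O, (x.1, x.2.1) = (y.1, y.2.1) → x = y := by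
    rintro ⟨a, b, c⟩ hx ⟨a', b', c'⟩ hy hxy
    simp only [Prod.mk.injEq] at hxy
    obtain ⟨rfl, rfl⟩ := hxy
    have h1 := (mem_OO F _).1 (hO hx)
    have h2 := (mem_OO F _).1 (hO hy)
    have := hU F 2.13 a b c c' hG h1 h2
    rw [this]
  have h1 : ∑ x ∈ O, E x.1 x.2.1 = ∑ e ∈ Ed, E e.1 e.2 := by
    rw [hEd, Finset.sum_image]
    intro x hx y hy hxy
    exact hinj x hx y hy hxy
  rw [h1, ← Finset.sum_filter_add_sum_filter_not Ed (fun e => (e.2, e.1) ∉ Ed)]
  have h2 : ∑ e ∈ Ed.filter (fun e => ¬ (e.2, e.1) ∉ Ed), E e.1 e.2 = 0 := by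
    have h3 : ∑ e ∈ Ed.filter (fun e => ¬ (e.2, e.1) ∉ Ed), E e.1 e.2
        = ∑ e ∈ Ed.filter (fun e => ¬ (e.2, e.1) ∉ Ed), E e.2 e.1 := by
      refine Finset.sum_equiv (Equiv.prodComm E2 E2) ?_ ?_
      · intro e
        simp only [Finset.mem_filter, not_not, Equiv.prodComm_apply, Prod.fst_swap, Prod.snd_swap]
        constructor
        · rintro ⟨h1, h2⟩; exact ⟨h2, h1⟩
        · rintro ⟨h1, h2⟩; exact ⟨h2, h1⟩
      · intro e _
        rfl
    have h4 : ∑ e ∈ Ed.filter (fun e => ¬ (e.2, e.1) ∉ Ed), E e.2 e.1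
        = -∑ e ∈ Ed.filter (fun e => ¬ (e.2, e.1) ∉ Ed), E e.1 e.2 := by
      rw [← Finset.sum_neg_distrib]
      exact Finset.sum_congr rfl (fun e _ => hanti e.2 e.1)
    linarith
  rw [h2, add_zero]
  calc -((Ed.filter (fun e => (e.2, e.1) ∉ Ed)).card : ℝ)
      = ∑ e ∈ Ed.filter (fun e => (e.2, e.1) ∉ Ed), (-1 : ℝ) := by
        rw [Finset.sum_const, nsmul_eq_mul]; ring
    _ ≤ ∑ e ∈ Ed.filter (fun e => (e.2, e.1) ∉ Ed), E e.1 e.2 := by
        apply Finset.sum_le_sum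
        intro e _
        exact (abs_le.1 (hb e.1 e.2)).1

theorem global (hU : UniqStmt) (hA : AdjStmt) (hM : MidStmt) (hR : AreaStmt) : GlobalStmt := by
  classical
  refine ⟨400 * π, ?_⟩
  intro F E s hs hG hsep hcov hanti hb htri
  obtain ⟨t, ht⟩ := exists_generic F
  have hpi := pi_pos
  -- sets of triangles
  obtain ⟨W, hWdef⟩ : ∃ W, W = (OO F).filter (Win (s + 3)) := ⟨_, rfl⟩
  obtain ⟨D, hDdef⟩ : ∃ D, D = (OO F).filter (fun x => ¬ Win (s + 3) x ∧ ‖x.1‖ ≤ s + 10 ∧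
    ‖x.2.1‖ ≤ s + 10 ∧ ‖x.2.2‖ ≤ s + 10) := ⟨_, rfl⟩
  have hOOrot : ∀ x, x ∈ OO F ↔ rot x ∈ OO F := by
    intro x
    rw [mem_OO, mem_OO]
    exact delTri_rot' F _ _ _ _
  have hWrot : ∀ x, x ∈ W ↔ rot x ∈ W := by
    intro x
    rw [hWdef, Finset.mem_filter, Finset.mem_filter, ← hOOrot, ← win_rot]
  have hDrot : ∀ x, x ∈ D ↔ rot x ∈ D := by
    intro x
    rw [hDdef, Finset.mem_filter, Finset.mem_filter, ← hOOrot, ← win_rot]
    simp only [rot, Equiv.coe_fn_mk]
    tauto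
  have hWO : W ⊆ OO F := by rw [hWdef]; exact Finset.filter_subset _ _
  have hDO : D ⊆ OO F := by rw [hDdef]; exact Finset.filter_subset _ _
  have hlev : ∀ x ∈ OO F, lev t x.1 ≠ lev t x.2.1 ∧ lev t x.2.1 ≠ lev t x.2.2 ∧
      lev t x.2.2 ≠ lev t x.1 := by
    intro x hx
    have hx' := (mem_OO F x).1 hx
    obtain ⟨n1, n2, n3⟩ := delTri_ne F _ _ _ _ hx'
    exact ⟨fun h => n1 (ht _ hx'.1 _ hx'.2.1 h), fun h => n2 (ht _ hx'.2.1 _ hx'.2.2.1 h),
      fun h => n3 (ht _ hx'.2.2.1 _ hx'.1 h)⟩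
  have hcovnear : ∀ a : E2, ‖a‖ ≤ s + 10 → ∀ x ∈ closedBall a 8, ∃ p ∈ F, dist p x ≤ 2.13 := by
    intro a ha x hx
    apply hcov
    rw [mem_closedBall, dist_zero_right]
    rw [mem_closedBall] at hx
    have h1 : ‖x‖ ≤ ‖x - a‖ + ‖a‖ := by
      have := norm_add_le (x - a) a
      simpa using this
    rw [dist_eq_norm] at hx
    linarith
  -- middle triangles
  obtain ⟨M, hMdef⟩ : ∃ M, M = W.filter (Mid t) := ⟨_, rfl⟩
  obtain ⟨DM, hDMdef⟩ : ∃ DM, DM = D.filter (Mid t) := ⟨_, rfl⟩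
  have hmidinj : ∀ x ∈ OO F, ∀ y ∈ OO F, Mid t x → Mid t y →
      ({x.1, x.2.1, x.2.2} : Set E2) = {y.1, y.2.1, y.2.2} → x = y := by
    rintro ⟨a, b, c⟩ hx ⟨a', b', c'⟩ hy h1 h2 h3
    exact mid_inj t a b c a' b' c' h1 h2 ((mem_OO F _).1 hx).2.2.2.1 ((mem_OO F _).1 hy).2.2.2.1 h3
  -- area of M
  have hareaM : ∑ x ∈ M, area3 x.1 x.2.1 x.2.2 ≤ π * (s + 6) ^ 2 := by
    have h1 := hR F 2.13 M (closedBall 0 (s + 6)) hG (fun x hx => by
      rw [hMdef, Finset.mem_filter] at hx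
      exact (mem_OO F x).1 (hWO hx.1)) (fun x hx y hy => by
      rw [hMdef, Finset.mem_filter] at hx hy
      exact hmidinj x (hWO hx.1) y (hWO hy.1) hx.2 hy.2) (fun x hx => by
      rw [hMdef, Finset.mem_filter, hWdef, Finset.mem_filter] at hx
      obtain ⟨o, r, hr, h1, h2, h3, ho⟩ := hx.1.2
      refine (hull_sub o _ _ _ r h1 h2 h3).trans ?_
      apply closedBall_subset_closedBall'
      rw [dist_zero_right]; linarith)
    rw [vol_ball _ (by linarith)] at h1
    exact (ENNReal.ofReal_le_ofReal_iff (by positivity)).1 h1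
  -- area of DM
  have hareaD : ∑ x ∈ DM, area3 x.1 x.2.1 x.2.2 ≤ 120 * π * s := by
    have h1 := hR F 2.13 DM (closedBall 0 (s + 10) \ closedBall 0 s) hG (fun x hx => by
      rw [hDMdef, Finset.mem_filter] at hx
      exact (mem_OO F x).1 (hDO hx.1)) (fun x hx y hy => by
      rw [hDMdef, Finset.mem_filter] at hx hy
      exact hmidinj x (hDO hx.1) y (hDO hy.1) hx.2 hy.2) (fun x hx => by
      rw [hDMdef, Finset.mem_filter, hDdef, Finset.mem_filter] at hx
      obtain ⟨⟨hxO, hnw, n1, n2, n3⟩, -⟩ := hx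
      obtain ⟨-, -, -, -, o, r, hr, h1, h2, h3, -⟩ := (mem_OO F x).1 hxO
      have ho : s + 3 < ‖o‖ := by
        by_contra hc
        exact hnw ⟨o, r, hr, h1, h2, h3, not_lt.1 hc⟩
      intro y hy
      refine ⟨?_, ?_⟩
      · have hsub : convexHull ℝ {x.1, x.2.1, x.2.2} ⊆ closedBall (0 : E2) (s + 10) := by
          apply convexHull_min _ (convex_closedBall _ _)
          rintro z hz
          simp only [mem_insert_iff, mem_singleton_iff] at hz
          rw [mem_closedBall, dist_zero_right]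
          rcases hz with rfl | rfl | rfl
          · exact n1
          · exact n2
          · exact n3
        exact hsub hy
      · have hy2 := hull_sub o _ _ _ r h1 h2 h3 hy
        rw [mem_closedBall] at hy2 ⊢
        rw [dist_zero_right]
        intro hys
        have h5 : ‖o‖ ≤ ‖o - y‖ + ‖y‖ := by
          have := norm_add_le (o - y) y
          simpa using this
        rw [dist_comm, dist_eq_norm] at hy2
        linarith)
    rw [measure_sdiff (closedBall_subset_closedBall (by linarith))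
      measurableSet_closedBall.nullMeasurableSet measure_closedBall_lt_top.ne,
      vol_ball _ (by linarith), vol_ball _ (by linarith), ← ENNReal.ofReal_sub _ (by positivity)] at h1
    have h2 := (ENNReal.ofReal_le_ofReal_iff (by nlinarith)).1 h1
    nlinarith
  -- number of boundary triangles
  have hcardD : (D.card : ℝ) = 3 * DM.card := by
    have h1 := sum_rot D hDrot t (fun x hx => hlev x (hDO hx)) (fun _ => (1:ℝ))
    rw [← hDMdef] at h1
    simp only [Finset.sum_const, nsmul_eq_mul, mul_one] at h1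
    rw [h1]; ring
  have hDMcard : (DM.card : ℝ) * 0.9 ≤ 120 * π * s := by
    refine le_trans ?_ hareaD
    have h1 : ∑ x ∈ DM, (0.9 : ℝ) ≤ ∑ x ∈ DM, area3 x.1 x.2.1 x.2.2 := by
      apply Finset.sum_le_sum
      intro x hx
      rw [hDMdef, Finset.mem_filter] at hx
      exact area_lower F hsep _ _ _ ((mem_OO F x).1 (hDO hx.1))
    rw [Finset.sum_const, nsmul_eq_mul] at h1
    exact h1
  have hDcard : (D.card : ℝ) ≤ 400 * π * s := by
    rw [hcardD]; nlinarith
  -- boundary edges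
  have hbd : ((W.image (fun x => (x.1, x.2.1))).filter
      (fun e => (e.2, e.1) ∉ W.image (fun x => (x.1, x.2.1)))).card ≤ D.card := by
    refine le_trans (Finset.card_le_card ?_)
      (Finset.card_image_le (s := D) (f := fun x => (x.2.1, x.1)))
    intro e he
    rw [Finset.mem_filter, Finset.mem_image] at he
    obtain ⟨⟨x, hxW, rfl⟩, hnot⟩ := he
    simp only at hnot
    have hxW' := hxW
    rw [hWdef, Finset.mem_filter] at hxW'
    obtain ⟨o, r, hr, h1, h2, h3, ho⟩ := hxW'.2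
    have na : ‖x.1‖ ≤ s + 5.13 := by
      have h4 : ‖x.1‖ ≤ ‖x.1 - o‖ + ‖o‖ := by
        have := norm_add_le (x.1 - o) o
        simpa using this
      rw [dist_eq_norm] at h1
      linarith
    have nb : ‖x.2.1‖ ≤ s + 5.13 := by
      have h4 : ‖x.2.1‖ ≤ ‖x.2.1 - o‖ + ‖o‖ := by
        have := norm_add_le (x.2.1 - o) o
        simpa using this
      rw [dist_eq_norm] at h2
      linarith
    obtain ⟨d, hd⟩ := hA F x.1 x.2.1 x.2.2 hG ((mem_OO F x).1 hxW'.1)
      (hcovnear x.1 (by linarith))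
    have nd : ‖d‖ ≤ s + 10 := by
      obtain ⟨-, -, -, -, o', r', hr', g1, g2, g3, -⟩ := hd
      have h4 : ‖d‖ ≤ ‖d - x.1‖ + ‖x.1‖ := by
        have := norm_add_le (d - x.1) x.1
        simpa using this
      have h5 : dist d x.1 ≤ dist d o' + dist o' x.1 := dist_triangle _ _ _
      rw [dist_comm o' x.1, g3, g2] at h5
      rw [dist_eq_norm] at h5
      linarith
    rw [Finset.mem_image]
    refine ⟨(x.2.1, x.1, d), ?_, rfl⟩
    rw [hDdef, Finset.mem_filter]
    refine ⟨(mem_OO F _).2 hd, ?_, by simp only; linarith, by simp only; linarith, nd⟩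
    intro hw
    apply hnot
    rw [Finset.mem_image]
    refine ⟨(x.2.1, x.1, d), ?_, rfl⟩
    rw [hWdef, Finset.mem_filter]
    exact ⟨(mem_OO F _).2 hd, hw⟩
  have hedge := edge_sum hU F hG E hanti hb W hWO
  have hedge2 : -(400 * π * s) ≤ ∑ x ∈ W, E x.1 x.2.1 := by
    refine le_trans ?_ hedge
    have : (((W.image (fun x => (x.1, x.2.1))).filter
      (fun e => (e.2, e.1) ∉ W.image (fun x => (x.1, x.2.1)))).card : ℝ) ≤ D.card := by
      exact_mod_cast hbd
    linarith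
  -- sum over middle triangles
  have hsumE : ∑ x ∈ W, E x.1 x.2.1
      = ∑ x ∈ M, (E x.1 x.2.1 + E x.2.1 x.2.2 + E x.2.2 x.1) := by
    have h1 := sum_rot W hWrot t (fun x hx => hlev x (hWO hx)) (fun x => E x.1 x.2.1)
    rw [← hMdef] at h1
    rw [h1]
    rfl
  have hineq : mu * M.card + ∑ x ∈ M, (E x.1 x.2.1 + E x.2.1 x.2.2 + E x.2.2 x.1)
      ≤ ∑ x ∈ M, area3 x.1 x.2.1 x.2.2 := by
    have h1 : mu * M.card = ∑ x ∈ M, mu := by
      rw [Finset.sum_const, nsmul_eq_mul]; ring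
    rw [h1, ← Finset.sum_add_distrib]
    apply Finset.sum_le_sum
    intro x hx
    rw [hMdef, Finset.mem_filter] at hx
    have := htri _ _ _ ((mem_OO F x).1 (hWO hx.1))
    linarith
  -- counting
  have hcount : 2 * (F.filter (fun p => ‖p‖ ≤ s)).card ≤ M.card := by
    have h1 : ((F.filter (fun p => ‖p‖ ≤ s)).biUnion (fun a => M.filter (fun x => x.1 = a))).card
        ≤ M.card := by
      apply Finset.card_le_card
      intro x hx
      rw [Finset.mem_biUnion] at hx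
      obtain ⟨a, -, hx⟩ := hx
      exact (Finset.mem_filter.1 hx).1
    rw [Finset.card_biUnion (by
      intro a _ b _ hab
      show Disjoint (M.filter (fun x => x.1 = a)) (M.filter (fun x => x.1 = b))
      rw [Finset.disjoint_left]
      intro x hx hx'
      rw [Finset.mem_filter] at hx hx'
      exact hab (hx.2.symm.trans hx'.2))] at h1
    refine le_trans ?_ h1
    rw [mul_comm, ← smul_eq_mul]
    apply Finset.card_nsmul_le_sum
    intro a ha
    rw [Finset.mem_filter] at ha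
    obtain ⟨b, c, b', c', T1, T2, hne, m1, m2⟩ := hM F t a hG ht ha.1 (hcovnear a (by linarith [ha.2]))
    have hmem : ∀ b c, DelTri F 2.13 a b c →
        (b 0 + t * b 1 - (a 0 + t * a 1)) * (c 0 + t * c 1 - (a 0 + t * a 1)) < 0 →
        (a, b, c) ∈ M.filter (fun x => x.1 = a) := by
      intro b c T m
      rw [Finset.mem_filter, hMdef, Finset.mem_filter, hWdef, Finset.mem_filter]
      refine ⟨⟨⟨(mem_OO F _).2 T, ?_⟩, m⟩, rfl⟩
      obtain ⟨-, -, -, -, o, r, hr, g1, g2, g3, -⟩ := T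
      refine ⟨o, r, hr, g1, g2, g3, ?_⟩
      have h4 : ‖o‖ ≤ ‖o - a‖ + ‖a‖ := by
        have := norm_add_le (o - a) a
        simpa using this
      rw [dist_comm, dist_eq_norm] at g1
      linarith [ha.2]
    have hsub : ({(a, b, c), (a, b', c')} : Finset (E2 × E2 × E2)) ⊆ M.filter (fun x => x.1 = a) := by
      intro x hx
      rw [Finset.mem_insert, Finset.mem_singleton] at hx
      rcases hx with rfl | rfl
      · exact hmem b c T1 m1
      · exact hmem b' c' T2 m2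
    have hc2 : ({(a, b, c), (a, b', c')} : Finset (E2 × E2 × E2)).card = 2 := by
      apply Finset.card_pair
      intro h
      apply hne
      simp only [Prod.mk.injEq] at h ⊢
      exact h.2
    exact hc2.symm.le.trans (Finset.card_le_card hsub)
  have hcount' : 2 * ((F.filter (fun p => ‖p‖ ≤ s)).card : ℝ) ≤ M.card := by exact_mod_cast hcount
  have hmu : 0 < mu := by
    unfold mu
    have := t9_pos
    positivity
  have hfin : mu * (2 * ((F.filter (fun p => ‖p‖ ≤ s)).card : ℝ)) ≤ mu * M.card :=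
    mul_le_mul_of_nonneg_left hcount' hmu.le
  rw [hsumE] at hedge2
  linarith

end Pool.Agent.W259.Nona
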