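import Pool.Agent.W259.Nona.Loc2
import Pool.Agent.W259.Nona.Glob2

set_option autoImplicit false

open Real Set Metric MeasureTheory

namespace Pool.Agent.W259.Nona

/-! ### from a finite family of nonagons to the counting statement -/

theorem gen_scale (F : Finset E2) (l : ℝ) (hl : 0 < l) (hG : Gen F) :
    Gen (F.image (fun a => l • a)) := by
  classical
  intro o r
  have h := hG (l⁻¹ • o) (l⁻¹ * r)
  refine le_trans ?_ h
  have hsub : (F.image (fun a => l • a)).filter (fun p => dist p o = r)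
      ⊆ (F.filter (fun p => dist p (l⁻¹ • o) = l⁻¹ * r)).image (fun a => l • a) := by
    intro p hp
    rw [Finset.mem_filter, Finset.mem_image] at hp
    obtain ⟨⟨a, ha, rfl⟩, hd⟩ := hp
    rw [Finset.mem_image]
    refine ⟨a, ?_, rfl⟩
    rw [Finset.mem_filter]
    refine ⟨ha, ?_⟩
    have e : dist (l • a) o = l * dist a (l⁻¹ • o) := by
      have : o = l • (l⁻¹ • o) := by rw [smul_smul, mul_inv_cancel₀ hl.ne', one_smul]
      conv_lhs => rw [this]
      rw [dist_smul₀, norm_eq_abs, abs_of_pos hl]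
    rw [e] at hd
    rw [← hd]
    field_simp
  exact (Finset.card_le_card hsub).trans Finset.card_image_le

theorem sep_dist (a b : E2) (ωa ωb : ℝ) (h : Sep a b ωa ωb) : 2 ≤ dist a b := by
  have h4 := (exists_adm a b ωa ωb h).1
  have h5 : dist a b ^ 2 = sq a b := by
    rw [Pool.Agent.Helper658.dist_sq]; unfold sq; ring
  rw [← h5] at h4
  nlinarith [dist_nonneg (x := a) (y := b)]

/-- the normal component changes by at most `2 ε` -/
theorem inner_perturb (a b a' b' : E2) (φ ε : ℝ) (ha : dist a' a ≤ ε) (hb : dist b' b ≤ ε) :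
    (b 0 - a 0) * cos φ + (b 1 - a 1) * sin φ - 2 * ε ≤
      (b' 0 - a' 0) * cos φ + (b' 1 - a' 1) * sin φ := by
  have key : ∀ p q : E2, dist p q ≤ ε → |(p 0 - q 0) * cos φ + (p 1 - q 1) * sin φ| ≤ ε := by
    intro p q h
    have hε : 0 ≤ ε := dist_nonneg.trans h
    apply abs_le_of_sq_le_sq _ hε
    have h1 : dist p q ^ 2 ≤ ε ^ 2 := pow_le_pow_left₀ dist_nonneg h 2
    rw [Pool.Agent.Helper658.dist_sq] at h1
    have h2 := sin_sq_add_cos_sq φ
    nlinarith [sq_nonneg ((p 0 - q 0) * sin φ - (p 1 - q 1) * cos φ)]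
  have h1 := (abs_le.1 (key a' a ha)).2
  have h2 := (abs_le.1 (key b' b hb)).1
  linarith

theorem sep_scaled (a b a' b' : E2) (ωa ωb ε : ℝ) (hε : 0 < ε) (hε1 : ε < 1)
    (h : Sep a b ωa ωb) (ha : dist a' a ≤ ε) (hb : dist b' b ≤ ε) :
    Sep ((1 - ε)⁻¹ • a') ((1 - ε)⁻¹ • b') ωa ωb := by
  obtain ⟨φ, h⟩ := h
  refine ⟨φ, ?_⟩
  have h1 := supp_ge_one (φ - ωa)
  have h2 := supp_ge_one (φ + π - ωb)
  have h3 := inner_perturb a b a' b' φ ε ha hb
  have e : (((1 - ε)⁻¹ • b') 0 - ((1 - ε)⁻¹ • a') 0) * cos φ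
      + (((1 - ε)⁻¹ • b') 1 - ((1 - ε)⁻¹ • a') 1) * sin φ
      = (1 - ε)⁻¹ * ((b' 0 - a' 0) * cos φ + (b' 1 - a' 1) * sin φ) := by
    simp only [PiLp.smul_apply, smul_eq_mul]; ring
  rw [e]
  have hpos : 0 < 1 - ε := by linarith
  rw [inv_mul_eq_div, le_div_iff₀ hpos]
  nlinarith

/-- the bound for the number of members of a separated family with centres in a ball -/
theorem count_centres (hL : LocalStmt) (hGl : GlobalStmt) (hSat : SaturateStmt)
    (hGen : GenericStmt) : ∃ K : ℝ, 0 ≤ K ∧ ∀ (F : Finset E2) (ω : E2 → ℝ) (r : ℝ), 1 ≤ r →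
      (∀ a ∈ F, ∀ b ∈ F, a ≠ b → Sep a b (ω a) (ω b)) → (∀ a ∈ F, ‖a‖ ≤ r) →
      2 * mu * F.card ≤ π * (1.000101 * r + 7) ^ 2 + K * r := by
  classical
  obtain ⟨K, hK⟩ := hGl
  refine ⟨2 * |K|, by positivity, ?_⟩
  intro F ω r hr hsep hnorm
  obtain ⟨F1, hF1, hsep1, hcov1⟩ := hSat F ω (r + 40) hsep
  have hd1 : ∀ a ∈ F1, ∀ b ∈ F1, a ≠ b → 2 * (0.0001:ℝ) < dist a b := fun a ha b hb hab => by
    have := sep_dist a b _ _ (hsep1 a ha b hb hab)
    linarith
  obtain ⟨g, hg1, hg2⟩ := hGen F1 0.0001 (by norm_num) hd1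
  set l : ℝ := (1 - 0.0001)⁻¹ with hl
  have hl0 : 0 < l := by rw [hl]; norm_num
  have hl1 : l < 1.000101 := by rw [hl]; norm_num
  have hl2 : 1 < l := by rw [hl]; norm_num
  have hginj : ∀ a ∈ F1, ∀ b ∈ F1, l • g a = l • g b → a = b := by
    intro a ha b hb h
    by_contra hne
    have h1 : g a = g b := smul_right_injective E2 hl0.ne' h
    have h2 := hd1 a ha b hb hne
    have h3 := dist_triangle a (g a) b
    rw [h1] at h3
    have h4 := hg1 a ha
    have h5 := hg1 b hb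
    rw [h1, dist_comm] at h4
    linarith
  set F2 : Finset E2 := (F1.image g).image (fun a => l • a) with hF2
  have hgen2 : Gen F2 := gen_scale _ l hl0 hg2
  have hmem2 : ∀ x, x ∈ F2 ↔ ∃ a ∈ F1, l • g a = x := by
    intro x
    rw [hF2, Finset.mem_image]
    constructor
    · rintro ⟨y, hy, rfl⟩
      rw [Finset.mem_image] at hy
      obtain ⟨a, ha, rfl⟩ := hy
      exact ⟨a, ha, rfl⟩
    · rintro ⟨a, ha, rfl⟩
      exact ⟨g a, Finset.mem_image_of_mem g ha, rfl⟩
  set ω2 : E2 → ℝ := fun x => if h : ∃ a ∈ F1, l • g a = x then ω h.choose else 0 with hω2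
  have hω2' : ∀ a ∈ F1, ω2 (l • g a) = ω a := by
    intro a ha
    have h : ∃ b ∈ F1, l • g b = l • g a := ⟨a, ha, rfl⟩
    simp only [hω2]
    rw [dif_pos h]
    rw [hginj _ h.choose_spec.1 a ha h.choose_spec.2]
  have hsep2 : ∀ x ∈ F2, ∀ y ∈ F2, x ≠ y → Sep x y (ω2 x) (ω2 y) := by
    intro x hx y hy hxy
    obtain ⟨a, ha, rfl⟩ := (hmem2 x).1 hx
    obtain ⟨b, hb, rfl⟩ := (hmem2 y).1 hy
    rw [hω2' a ha, hω2' b hb]
    have hab : a ≠ b := by rintro rfl; exact hxy rfl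
    exact sep_scaled a b (g a) (g b) _ _ 0.0001 (by norm_num) (by norm_num) (hsep1 a ha b hb hab)
      (hg1 a ha) (hg1 b hb)
  obtain ⟨E, hE1, hE2, hE3⟩ := hL F2 ω2 hsep2
  set s : ℝ := l * (r + 0.0001) with hs
  have hs1 : 1 ≤ s := by rw [hs]; nlinarith
  have hcov2 : ∀ x ∈ closedBall (0 : E2) (s + 20), ∃ p ∈ F2, dist p x ≤ 2.13 := by
    intro x hx
    rw [mem_closedBall, dist_zero_right] at hx
    have hx' : l⁻¹ • x ∈ closedBall (0 : E2) (r + 40) := by
      rw [mem_closedBall, dist_zero_right, norm_smul, norm_inv, norm_eq_abs, abs_of_pos hl0]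
      rw [inv_mul_eq_div, div_le_iff₀ hl0]
      rw [hs] at hx
      have h5 : l * (r + 0.0001) + 20 ≤ (r + 40) * l := by
        have h6 : (r + 40) * l - l * (r + 0.0001) = 39.9999 * l := by ring
        linarith only [h6, hl2]
      exact hx.trans h5
    obtain ⟨a, ha, hda⟩ := hcov1 _ hx'
    refine ⟨l • g a, (hmem2 _).2 ⟨a, ha, rfl⟩, ?_⟩
    have e : x = l • (l⁻¹ • x) := by rw [smul_smul, mul_inv_cancel₀ hl0.ne', one_smul]
    rw [e, dist_smul₀, norm_eq_abs, abs_of_pos hl0]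
    have h1 := dist_triangle (g a) a (l⁻¹ • x)
    have h2 := hg1 a ha
    have h3 : dist (g a) (l⁻¹ • x) ≤ 2.1286 := by linarith
    have h4 : 0 ≤ dist (g a) (l⁻¹ • x) := dist_nonneg
    nlinarith
  have hfin := hK F2 E s hs1 hgen2 (fun a ha b hb hab => sep_dist a b _ _ (hsep2 a ha b hb hab))
    hcov2 hE1 hE2 hE3
  have hcard : F.card ≤ (F2.filter (fun p => ‖p‖ ≤ s)).card := by
    apply Finset.card_le_card_of_injOn (fun a => l • g a)
    · intro a ha
      have ha' : a ∈ F := ha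
      rw [Finset.mem_coe, Finset.mem_filter]
      refine ⟨(hmem2 _).2 ⟨a, hF1 ha', rfl⟩, ?_⟩
      simp only
      rw [norm_smul, norm_eq_abs, abs_of_pos hl0, hs]
      apply mul_le_mul_of_nonneg_left _ hl0.le
      have h1 := hg1 a (hF1 ha')
      have h2 : ‖g a‖ ≤ ‖g a - a‖ + ‖a‖ := by
        have := norm_add_le (g a - a) a
        simpa using this
      rw [dist_eq_norm] at h1
      have h3 := hnorm a ha'
      linarith
    · intro a ha b hb hab
      exact hginj a (hF1 ha) b (hF1 hb) hab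
  have hmu : 0 < mu := by
    unfold mu
    have := t9_pos
    positivity
  have hcard' : (F.card : ℝ) ≤ ((F2.filter (fun p => ‖p‖ ≤ s)).card : ℝ) := by exact_mod_cast hcard
  have h1 : 2 * mu * F.card ≤ 2 * mu * ((F2.filter (fun p => ‖p‖ ≤ s)).card : ℝ) :=
    mul_le_mul_of_nonneg_left hcard' (by positivity)
  have hs2 : s ≤ 1.000101 * r + 1 := by rw [hs]; nlinarith
  have hs3 : s ≤ 2 * r := by nlinarith
  have h2 : K * s ≤ 2 * |K| * r := by
    have h3 : K * s ≤ |K| * s := mul_le_mul_of_nonneg_right (le_abs_self K) (by linarith)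
    have h4 : |K| * s ≤ |K| * (2 * r) := mul_le_mul_of_nonneg_left hs3 (abs_nonneg K)
    linarith
  have h3 : π * (s + 6) ^ 2 ≤ π * (1.000101 * r + 7) ^ 2 := by
    apply mul_le_mul_of_nonneg_left _ pi_pos.le
    apply pow_le_pow_left₀ (by linarith)
    linarith
  linarith

end Pool.Agent.W259.Nona
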