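import Pool.Agent.W259.Nona.Defs

set_option autoImplicit false

/-! numerical facts about `cos (pi/9)` and the functions of `Defs` -/

open Real

namespace Pool.Agent.W259.Nona

theorem c9_pos : 0 < cos (π / 9) :=
  cos_pos_of_mem_Ioo ⟨by linarith [pi_pos], by linarith [pi_pos]⟩

theorem s9_pos : 0 < sin (π / 9) :=
  sin_pos_of_pos_of_lt_pi (by linarith [pi_pos]) (by linarith [pi_pos])

theorem c9_cubic : 4 * cos (π / 9) ^ 3 - 3 * cos (π / 9) = 1 / 2 := by
  have h := cos_three_mul (π / 9)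
  rw [show 3 * (π / 9) = π / 3 by ring, cos_pi_div_three] at h
  linarith

theorem c9_gt_aux : 0.9 < cos (π / 9) := by
  have h := one_sub_sq_div_two_le_cos (x := π / 9)
  have h2 : π < 3.15 := pi_lt_d2
  nlinarith [pi_pos]

theorem c9_gt : 0.93969262 < cos (π / 9) := by
  have h := c9_cubic
  have h1 := c9_gt_aux
  by_contra hc
  push Not at hc
  set c := cos (π / 9)
  nlinarith [mul_nonneg (sub_nonneg.2 hc) (sub_nonneg.2 h1.le), sq_nonneg c,
    mul_nonneg (mul_nonneg (sub_nonneg.2 hc) (sub_nonneg.2 h1.le)) (by linarith : (0:ℝ) ≤ c)]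

theorem c9_lt : cos (π / 9) < 0.93969263 := by
  have h := c9_cubic
  have h1 := c9_gt_aux
  by_contra hc
  push Not at hc
  set c := cos (π / 9)
  nlinarith [mul_nonneg (sub_nonneg.2 hc) (sub_nonneg.2 h1.le), sq_nonneg c,
    mul_nonneg (mul_nonneg (sub_nonneg.2 hc) (sub_nonneg.2 h1.le)) (by linarith : (0:ℝ) ≤ c)]

theorem s9_sq : sin (π / 9) ^ 2 = 1 - cos (π / 9) ^ 2 := by
  have := sin_sq_add_cos_sq (π / 9)
  linarith

theorem s9_gt : 0.3420201 < sin (π / 9) := by
  have h := s9_sq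
  have h1 := c9_lt
  have h2 := c9_pos
  have h3 := s9_pos
  by_contra hc
  push Not at hc
  nlinarith

theorem s9_lt : sin (π / 9) < 0.3420202 := by
  have h := s9_sq
  have h1 := c9_gt
  have h2 := c9_pos
  have h3 := s9_pos
  by_contra hc
  push Not at hc
  nlinarith

theorem t9_eq : tan (π / 9) = sin (π / 9) / cos (π / 9) := tan_eq_sin_div_cos _

theorem t9_pos : 0 < tan (π / 9) := by
  rw [t9_eq]; exact div_pos s9_pos c9_pos

theorem t9_gt : 0.363970 < tan (π / 9) := by
  rw [t9_eq, lt_div_iff₀ c9_pos]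
  have := c9_lt; have := s9_gt
  nlinarith

theorem t9_lt : tan (π / 9) < 0.363971 := by
  rw [t9_eq, div_lt_iff₀ c9_pos]
  have := c9_gt; have := s9_lt
  nlinarith

theorem c29_eq : cos (2 * π / 9) = 2 * cos (π / 9) ^ 2 - 1 := by
  rw [show 2 * π / 9 = 2 * (π / 9) by ring, cos_two_mul]

theorem s29_eq : sin (2 * π / 9) = 2 * sin (π / 9) * cos (π / 9) := by
  rw [show 2 * π / 9 = 2 * (π / 9) by ring, sin_two_mul]

theorem c29_gt : 0.766044 < cos (2 * π / 9) := by
  rw [c29_eq]; have := c9_gt; nlinarith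

theorem c29_lt : cos (2 * π / 9) < 0.766045 := by
  rw [c29_eq]; have := c9_lt; have := c9_pos; nlinarith

theorem s29_gt : 0.642787 < sin (2 * π / 9) := by
  rw [s29_eq]; have := c9_gt; have := s9_gt; nlinarith

theorem s29_lt : sin (2 * π / 9) < 0.642788 := by
  rw [s29_eq]; have := c9_lt; have := s9_lt; have := s9_pos; have := c9_pos; nlinarith

theorem c49_eq : cos (4 * π / 9) = 2 * cos (2 * π / 9) ^ 2 - 1 := by
  rw [show 4 * π / 9 = 2 * (2 * π / 9) by ring, cos_two_mul]

theorem s49_eq : sin (4 * π / 9) = 2 * sin (2 * π / 9) * cos (2 * π / 9) := by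
  rw [show 4 * π / 9 = 2 * (2 * π / 9) by ring, sin_two_mul]

theorem c49_gt : 0.17364 < cos (4 * π / 9) := by
  rw [c49_eq]; have := c29_gt; nlinarith

theorem c49_lt : cos (4 * π / 9) < 0.17365 := by
  rw [c49_eq]; have := c29_lt; have := c29_gt; nlinarith

theorem s49_gt : 0.98480 < sin (4 * π / 9) := by
  rw [s49_eq]; have := c29_gt; have := s29_gt; nlinarith

theorem s49_lt : sin (4 * π / 9) < 0.98481 := by
  rw [s49_eq]; have := c29_lt; have := s29_lt; have := c29_gt; have := s29_gt; nlinarith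

theorem s39_eq : sin (π / 3) = √3 / 2 := sin_pi_div_three

theorem s39_gt : 0.866025 < sin (π / 3) := by
  rw [s39_eq]
  have : (1.73205 : ℝ) < √3 := by
    rw [Real.lt_sqrt (by norm_num)]; norm_num
  linarith

theorem s39_lt : sin (π / 3) < 0.866026 := by
  rw [s39_eq]
  have : √3 < (1.732052 : ℝ) := by
    rw [Real.sqrt_lt' (by norm_num)]; norm_num
  linarith

/-- `1 / cos (pi/9)`, the circumradius -/
theorem R9_gt : 1.0641777 < 1 / cos (π / 9) := by
  rw [lt_div_iff₀ c9_pos]; have := c9_lt; linarith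

theorem R9_lt : 1 / cos (π / 9) < 1.0641778 := by
  rw [div_lt_iff₀ c9_pos]; have := c9_gt; linarith

/-! the offset function -/

theorem off_abs_le (t : ℝ) : |off t| ≤ π / 9 := by
  have h := abs_sub_round (t / (2 * π / 9))
  have hp : (0:ℝ) < 2 * π / 9 := by positivity
  have e : off t = 2 * π / 9 * (t / (2 * π / 9) - round (t / (2 * π / 9))) := by
    unfold off; field_simp
  rw [e, abs_mul, abs_of_pos hp]
  nlinarith

theorem off_add_int (t : ℝ) (k : ℤ) : off (t + 2 * π / 9 * k) = off t := by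
  unfold off
  have hp : (2 * π / 9 : ℝ) ≠ 0 := by positivity
  have e : (t + 2 * π / 9 * k) / (2 * π / 9) = t / (2 * π / 9) + k := by field_simp
  rw [e, round_add_intCast]
  push_cast
  ring

/-- `t = off t + (2 pi / 9) k` -/
theorem exists_off (t : ℝ) : ∃ k : ℤ, t = off t + 2 * π / 9 * k :=
  ⟨round (t / (2 * π / 9)), by unfold off; ring⟩

theorem off_add_two_pi_int (t : ℝ) (k : ℤ) : off (t + 2 * π * k) = off t := by
  have : t + 2 * π * k = t + 2 * π / 9 * ((9 * k : ℤ) : ℝ) := by push_cast; ring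
  rw [this, off_add_int]

theorem supp_add_int (t : ℝ) (k : ℤ) : supp (t + 2 * π / 9 * k) = supp t := by
  unfold supp; rw [off_add_int]

theorem psi_add_int (t : ℝ) (k : ℤ) : psi (t + 2 * π / 9 * k) = psi t := by
  unfold psi; rw [off_add_int]

theorem supp_add_two_pi_int (t : ℝ) (k : ℤ) : supp (t + 2 * π * k) = supp t := by
  unfold supp; rw [off_add_two_pi_int]

theorem psi_add_two_pi_int (t : ℝ) (k : ℤ) : psi (t + 2 * π * k) = psi t := by
  unfold psi; rw [off_add_two_pi_int]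

theorem supp_add_two_pi (t : ℝ) : supp (t + 2 * π) = supp t := by
  have := supp_add_two_pi_int t 1; simpa using this

theorem psi_add_two_pi (t : ℝ) : psi (t + 2 * π) = psi t := by
  have := psi_add_two_pi_int t 1; simpa using this

theorem supp_ge_one (t : ℝ) : 1 ≤ supp t := by
  unfold supp
  rw [le_div_iff₀ c9_pos, one_mul, ← cos_abs (off t)]
  exact cos_le_cos_of_nonneg_of_le_pi (abs_nonneg _) (by linarith [pi_pos]) (off_abs_le t)

theorem supp_le (t : ℝ) : supp t ≤ 1 / cos (π / 9) := by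
  unfold supp
  gcongr
  · exact c9_pos.le
  · exact cos_le_one _

theorem supp_lt (t : ℝ) : supp t < 1.0641778 := (supp_le t).trans_lt R9_lt

/-- the support value is at least the value given by any vertex -/
theorem cos_le_supp (t : ℝ) (k : ℤ) : cos (t - 2 * π / 9 * k) / cos (π / 9) ≤ supp t := by
  unfold supp
  gcongr
  · exact c9_pos.le
  -- distance of `t` to `2 pi /9 k` modulo `2 pi` is at least `|off t|`
  obtain ⟨m, hm⟩ := exists_off t
  have e : t - 2 * π / 9 * k = off t + 2 * π / 9 * ((m - k : ℤ) : ℝ) := by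
    push_cast; linarith
  rw [e]
  generalize (m - k : ℤ) = j
  -- reduce j modulo 9 into [-4, 4]
  have hoff := off_abs_le t
  obtain ⟨q, r, hj, hr1, hr2⟩ : ∃ q r : ℤ, j = 9 * q + r ∧ -4 ≤ r ∧ r ≤ 4 := by
    refine ⟨(j + 4) / 9, (j + 4) % 9 - 4, ?_, ?_, ?_⟩ <;> omega
  have e2 : off t + 2 * π / 9 * (j : ℝ) = (off t + 2 * π / 9 * r) + q * (2 * π) := by
    rw [hj]; push_cast; ring
  rw [e2, cos_add_int_mul_two_pi]
  by_cases h0 : r = 0
  · rw [h0]; simp
  rw [← cos_abs (off t), ← cos_abs (off t + 2 * π / 9 * r)]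
  have hr : (1:ℝ) ≤ |(r:ℝ)| := by
    have : 1 ≤ |r| := Int.one_le_abs h0
    exact_mod_cast this
  have hr4 : |(r:ℝ)| ≤ 4 := by
    have : |r| ≤ 4 := by rw [abs_le]; exact ⟨hr1, hr2⟩
    exact_mod_cast this
  have hpi := pi_pos
  have habs : |2 * π / 9 * (r:ℝ)| = 2 * π / 9 * |(r:ℝ)| := by
    rw [abs_mul, abs_of_pos (by positivity)]
  have l1 : |2 * π / 9 * (r:ℝ)| - |off t| ≤ |off t + 2 * π / 9 * r| := by
    have := abs_sub_abs_le_abs_sub (2 * π / 9 * (r:ℝ)) (-off t)
    rw [abs_neg, sub_neg_eq_add, add_comm (2 * π / 9 * (r:ℝ))] at this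
    exact this
  have l2 : |off t + 2 * π / 9 * r| ≤ |off t| + |2 * π / 9 * (r:ℝ)| := abs_add_le _ _
  rw [habs] at l1 l2
  exact cos_le_cos_of_nonneg_of_le_pi (abs_nonneg _) (by nlinarith) (by nlinarith)

end Pool.Agent.W259.Nona
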