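import Mathlib

set_option autoImplicit false

/-!
Definitions for the density bound of the regular nonagon (problem MP_b090c9_co).
The nonagon has inradius one and circumradius `1 / cos (pi/9)`; angles are measured from a
vertex direction of the body, vertices have directions `2 * pi * k / 9`.
-/

open Real

namespace Pool.Agent.W259.Nona

/-- the plane -/
abbrev E2 := EuclideanSpace ℝ (Fin 2)

/-- offset of an angle from the nearest vertex direction -/
noncomputable def off (t : ℝ) : ℝ := t - 2 * π / 9 * round (t / (2 * π / 9))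

/-- support function of the nonagon -/
noncomputable def supp (t : ℝ) : ℝ := cos (off t) / cos (π / 9)

/-- the corner potential -/
noncomputable def psi (t : ℝ) : ℝ :=
  sin (2 * off t) / (4 * cos (π / 9) ^ 2) - 9 * tan (π / 9) / (2 * π) * off t

/-- area of the corner quadrilateral cut out by two lines at distance `h`, `k` from the centre,
with angle `α` between the normals -/
noncomputable def wed (h k α : ℝ) : ℝ := (2 * h * k - (h ^ 2 + k ^ 2) * cos α) / (2 * sin α)

/-- lower bound for the corner excess -/
noncomputable def GG (α : ℝ) : ℝ :=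
  if α ≤ 2 * π / 9 then 0
  else if α ≤ 4 * π / 9 then
    2 * tan (π / 9) ^ 2 * sin (2 * π / 9) * sin (α - 2 * π / 9) / sin α
  else
    2 * sin (2 * π / 9) ^ 2 * sin (π / 3) / cos (π / 9) ^ 2 * sin (α - π / 3) / sin α
      - 2 * tan (π / 9) ^ 2 * sin (2 * π / 9)

/-- half the area of the nonagon plus the gain -/
noncomputable def mu : ℝ := 9 * tan (π / 9) / 2 + 0.1778

/-- signed area of a triangle -/
noncomputable def area3 (a b c : E2) : ℝ :=
  ((b 0 - a 0) * (c 1 - a 1) - (b 1 - a 1) * (c 0 - a 0)) / 2

/-- the edge term of a directed edge with difference vector `(dx, dy)` and separating normal of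
angle `φ`; the bodies have vertex directions `ωa`, `ωb` -/
noncomputable def Esh (dx dy φ ωa ωb : ℝ) : ℝ :=
  psi (φ + π - ωb) - psi (φ - ωa)
    + (dx * sin φ - dy * cos φ) * (supp (φ - ωa) - supp (φ + π - ωb)) / 2

/-- `φ` is an admissible separating normal for the short edge `(dx, dy)` -/
def Adm (dx dy φ ωa ωb : ℝ) : Prop :=
  supp (φ - ωa) + supp (φ + π - ωb) ≤ dx * cos φ + dy * sin φ ∧
    (dx ^ 2 + dy ^ 2 < 2.1284 ^ 2 ∨ (dx * sin φ = dy * cos φ))

/-- the bodies with centres `a`, `b` and vertex directions `ωa`, `ωb` are separated by a line -/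
def Sep (a b : E2) (ωa ωb : ℝ) : Prop :=
  ∃ φ : ℝ, supp (φ - ωa) + supp (φ + π - ωb) ≤ (b 0 - a 0) * cos φ + (b 1 - a 1) * sin φ

/-- `(a, b, c)` is a counterclockwise triangle with vertices in `F` whose circumscribed circle has
radius at most `R` and has no point of `F` in its interior -/
def DelTri (F : Finset E2) (R : ℝ) (a b c : E2) : Prop :=
  a ∈ F ∧ b ∈ F ∧ c ∈ F ∧ 0 < area3 a b c ∧
    ∃ o : E2, ∃ r : ℝ, r ≤ R ∧ dist a o = r ∧ dist b o = r ∧ dist c o = r ∧ ∀ p ∈ F, r ≤ dist p o

/-- no four points of `F` lie on a circle -/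
def Gen (F : Finset E2) : Prop :=
  ∀ (o : E2) (r : ℝ), (F.filter (fun p => dist p o = r)).card ≤ 3

/-- the nonagon with centre `c` and vertex direction `ω`, as the convex hull of its vertices -/
noncomputable def vtx (c : E2) (ω : ℝ) (k : ℤ) : E2 :=
  !₂[c 0 + cos (ω + 2 * π / 9 * k) / cos (π / 9), c 1 + sin (ω + 2 * π / 9 * k) / cos (π / 9)]

/-- the nonagon with centre `c` and vertex direction `ω` -/
noncomputable def body (c : E2) (ω : ℝ) : Set E2 := convexHull ℝ (Set.range (vtx c ω))

end Pool.Agent.W259.Nona
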