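import Pool.Agent.W259.Nona.Stmts
import Pool.Agent.Helper658.Cnt
import Pool.Agent.Helper658.Tri
import Pool.Agent.Helper658.Kershner

set_option autoImplicit false

open Real Set Metric MeasureTheory

namespace Pool.Agent.W259.Nona

open Pool.Agent.Helper658 (dist_sq circ_identity exists_generic)

/-- cyclic rotation of triples -/
def rot : E2 × E2 × E2 ≃ E2 × E2 × E2 where
  toFun t := (t.2.1, t.2.2, t.1)
  invFun t := (t.2.2, t.1, t.2.1)
  left_inv t := by rfl
  right_inv t := by rfl

/-- level -/
def lev (t : ℝ) (p : E2) : ℝ := p 0 + t * p 1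

/-- the first vertex is the middle one -/
def Mid (t : ℝ) (x : E2 × E2 × E2) : Prop :=
  (lev t x.2.1 - lev t x.1) * (lev t x.2.2 - lev t x.1) < 0

theorem mid_count (x y z : ℝ) (hxy : x ≠ y) (hyz : y ≠ z) (hzx : z ≠ x) :
    (if (y - x) * (z - x) < 0 then (1:ℝ) else 0) + (if (z - y) * (x - y) < 0 then (1:ℝ) else 0)
      + (if (x - z) * (y - z) < 0 then (1:ℝ) else 0) = 1 := by
  rcases lt_or_gt_of_ne hxy with h1 | h1 <;> rcases lt_or_gt_of_ne hyz with h2 | h2 <;>
    rcases lt_or_gt_of_ne hzx with h3 | h3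
  · linarith
  · have a1 : ¬ (y - x) * (z - x) < 0 := not_lt.2 (mul_nonneg (by linarith) (by linarith))
    have a2 : (z - y) * (x - y) < 0 := mul_neg_of_pos_of_neg (by linarith) (by linarith)
    have a3 : ¬ (x - z) * (y - z) < 0 :=
      not_lt.2 (mul_nonneg_of_nonpos_of_nonpos (by linarith) (by linarith))
    simp [a1, a2, a3]
  · have a1 : (y - x) * (z - x) < 0 := mul_neg_of_pos_of_neg (by linarith) (by linarith)
    have a2 : ¬ (z - y) * (x - y) < 0 :=
      not_lt.2 (mul_nonneg_of_nonpos_of_nonpos (by linarith) (by linarith))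
    have a3 : ¬ (x - z) * (y - z) < 0 := not_lt.2 (mul_nonneg (by linarith) (by linarith))
    simp [a1, a2, a3]
  · have a1 : ¬ (y - x) * (z - x) < 0 := not_lt.2 (mul_nonneg (by linarith) (by linarith))
    have a2 : ¬ (z - y) * (x - y) < 0 :=
      not_lt.2 (mul_nonneg_of_nonpos_of_nonpos (by linarith) (by linarith))
    have a3 : (x - z) * (y - z) < 0 := mul_neg_of_neg_of_pos (by linarith) (by linarith)
    simp [a1, a2, a3]
  · have a1 : ¬ (y - x) * (z - x) < 0 :=
      not_lt.2 (mul_nonneg_of_nonpos_of_nonpos (by linarith) (by linarith))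
    have a2 : ¬ (z - y) * (x - y) < 0 := not_lt.2 (mul_nonneg (by linarith) (by linarith))
    have a3 : (x - z) * (y - z) < 0 := mul_neg_of_pos_of_neg (by linarith) (by linarith)
    simp [a1, a2, a3]
  · have a1 : (y - x) * (z - x) < 0 := mul_neg_of_neg_of_pos (by linarith) (by linarith)
    have a2 : ¬ (z - y) * (x - y) < 0 := not_lt.2 (mul_nonneg (by linarith) (by linarith))
    have a3 : ¬ (x - z) * (y - z) < 0 :=
      not_lt.2 (mul_nonneg_of_nonpos_of_nonpos (by linarith) (by linarith))
    simp [a1, a2, a3]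
  · have a1 : ¬ (y - x) * (z - x) < 0 :=
      not_lt.2 (mul_nonneg_of_nonpos_of_nonpos (by linarith) (by linarith))
    have a2 : (z - y) * (x - y) < 0 := mul_neg_of_neg_of_pos (by linarith) (by linarith)
    have a3 : ¬ (x - z) * (y - z) < 0 := not_lt.2 (mul_nonneg (by linarith) (by linarith))
    simp [a1, a2, a3]
  · linarith

open Classical in
/-- sums over rotation invariant sets of triples -/
theorem sum_rot (O : Finset (E2 × E2 × E2)) (hO : ∀ x, x ∈ O ↔ rot x ∈ O) (t : ℝ)
    (hlev : ∀ x ∈ O, lev t x.1 ≠ lev t x.2.1 ∧ lev t x.2.1 ≠ lev t x.2.2 ∧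
      lev t x.2.2 ≠ lev t x.1) (g : E2 × E2 × E2 → ℝ) :
    ∑ x ∈ O, g x = ∑ x ∈ O.filter (Mid t), (g x + g (rot x) + g (rot (rot x))) := by
  have h1 : ∀ x ∈ O, g x = (if Mid t x then g x else 0) + (if Mid t (rot x) then g x else 0)
      + (if Mid t (rot (rot x)) then g x else 0) := by
    intro x hx
    obtain ⟨e1, e2, e3⟩ := hlev x hx
    have := mid_count (lev t x.1) (lev t x.2.1) (lev t x.2.2) e1 e2 e3
    have k1 : (if Mid t x then g x else 0) = (if (lev t x.2.1 - lev t x.1) *
      (lev t x.2.2 - lev t x.1) < 0 then (1:ℝ) else 0) * g x := by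
      unfold Mid; split_ifs <;> simp
    have k2 : (if Mid t (rot x) then g x else 0) = (if (lev t x.2.2 - lev t x.2.1) *
      (lev t x.1 - lev t x.2.1) < 0 then (1:ℝ) else 0) * g x := by
      unfold Mid rot; simp only [Equiv.coe_fn_mk]; split_ifs <;> simp
    have k3 : (if Mid t (rot (rot x)) then g x else 0) = (if (lev t x.1 - lev t x.2.2) *
      (lev t x.2.1 - lev t x.2.2) < 0 then (1:ℝ) else 0) * g x := by
      unfold Mid rot; simp only [Equiv.coe_fn_mk]; split_ifs <;> simp
    rw [k1, k2, k3, ← add_mul, ← add_mul, this, one_mul]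
  have hrot3 : ∀ x, rot (rot (rot x)) = x := fun x => rfl
  rw [Finset.sum_congr rfl h1, Finset.sum_add_distrib, Finset.sum_add_distrib,
    Finset.sum_filter]
  have h2 : ∑ x ∈ O, (if Mid t (rot x) then g x else 0)
      = ∑ x ∈ O, (if Mid t x then g (rot (rot x)) else 0) := by
    refine Finset.sum_equiv rot hO ?_
    intro x _
    rw [hrot3]
  have h3 : ∑ x ∈ O, (if Mid t (rot (rot x)) then g x else 0)
      = ∑ x ∈ O, (if Mid t x then g (rot x) else 0) := by
    refine Finset.sum_equiv (rot.trans rot) (fun x => (hO x).trans (hO (rot x))) ?_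
    intro x _
    show (if Mid t (rot (rot x)) then g x else 0)
      = (if Mid t (rot (rot x)) then g (rot (rot (rot x))) else 0)
    rw [hrot3]
  rw [h2, h3, ← Finset.sum_add_distrib, ← Finset.sum_add_distrib]
  apply Finset.sum_congr rfl
  intro x _
  split_ifs <;> ring

/-- triples with the middle vertex first and equal vertex sets coincide -/
theorem mid_inj (t : ℝ) (a b c a' b' c' : E2) (hm : Mid t (a, b, c)) (hm' : Mid t (a', b', c'))
    (hK : 0 < area3 a b c) (hK' : 0 < area3 a' b' c')
    (hset : ({a, b, c} : Set E2) = {a', b', c'}) : (a, b, c) = (a', b', c') := by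
  unfold Mid at hm hm'
  simp only at hm hm'
  have ha' : a' ∈ ({a, b, c} : Set E2) := by rw [hset]; simp
  have hb' : b' ∈ ({a, b, c} : Set E2) := by rw [hset]; simp
  have hc' : c' ∈ ({a, b, c} : Set E2) := by rw [hset]; simp
  simp only [mem_insert_iff, mem_singleton_iff] at ha' hb' hc'
  have s1 := sq_nonneg (lev t a - lev t b)
  have s2 := sq_nonneg (lev t a - lev t c)
  have s3 := sq_nonneg (lev t c - lev t b)
  have hz : ∀ p q : E2, area3 p q q = 0 := by intro p q; unfold area3; ring
  have hz2 : ∀ p q : E2, area3 p q p = 0 := by intro p q; unfold area3; ring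
  have hz3 : ∀ p q : E2, area3 p p q = 0 := by intro p q; unfold area3; ring
  have hsw : area3 a c b = -area3 a b c := by unfold area3; ring
  rcases ha' with rfl | rfl | rfl
  · rcases hb' with rfl | rfl | rfl
    · rw [hz3] at hK'; exact absurd hK' (lt_irrefl _)
    · rcases hc' with rfl | rfl | rfl
      · rw [hz2] at hK'; exact absurd hK' (lt_irrefl _)
      · rw [hz] at hK'; exact absurd hK' (lt_irrefl _)
      · rfl
    · rcases hc' with rfl | rfl | rfl
      · rw [hz2] at hK'; exact absurd hK' (lt_irrefl _)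
      · rw [hsw] at hK'; linarith
      · rw [hz] at hK'; exact absurd hK' (lt_irrefl _)
  · exfalso
    rcases hb' with rfl | rfl | rfl
    · rcases hc' with rfl | rfl | rfl
      · rw [hz] at hK'; exact absurd hK' (lt_irrefl _)
      · rw [hz2] at hK'; exact absurd hK' (lt_irrefl _)
      · linarith
    · rw [hz3] at hK'; exact absurd hK' (lt_irrefl _)
    · rcases hc' with rfl | rfl | rfl
      · linarith
      · rw [hz2] at hK'; exact absurd hK' (lt_irrefl _)
      · rw [hz] at hK'; exact absurd hK' (lt_irrefl _)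
  · exfalso
    rcases hb' with rfl | rfl | rfl
    · rcases hc' with rfl | rfl | rfl
      · rw [hz] at hK'; exact absurd hK' (lt_irrefl _)
      · linarith
      · rw [hz2] at hK'; exact absurd hK' (lt_irrefl _)
    · rcases hc' with rfl | rfl | rfl
      · linarith
      · rw [hz] at hK'; exact absurd hK' (lt_irrefl _)
      · rw [hz2] at hK'; exact absurd hK' (lt_irrefl _)
    · rw [hz3] at hK'; exact absurd hK' (lt_irrefl _)

end Pool.Agent.W259.Nona
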