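import Pool.Agent.W259.Nona.Stmts
import Pool.Agent.Helper658.Cnt
import Pool.Agent.Helper658.Tri

set_option autoImplicit false

open Real Set

namespace Pool.Agent.W259.Nona

open Pool.Agent.Helper658 (dist_sq circ_identity)

theorem mu_lt : mu < 1.81567 := by
  unfold mu
  have := t9_lt
  linarith

/-- square of the distance -/
def sq (a b : E2) : ℝ := (b 0 - a 0) ^ 2 + (b 1 - a 1) ^ 2

theorem sq_comm (a b : E2) : sq a b = sq b a := by unfold sq; ring

theorem adm_swap (dx dy φ ωa ωb : ℝ) (h : Adm dx dy φ ωa ωb) : Adm (-dx) (-dy) (φ + π) ωb ωa := by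
  obtain ⟨h1, h2⟩ := h
  refine ⟨?_, ?_⟩
  · rw [cos_add_pi, sin_add_pi, show φ + π + π - ωa = φ - ωa + 2 * π by ring, supp_add_two_pi]
    linarith
  · rw [cos_add_pi, sin_add_pi]
    rcases h2 with h2 | h2
    · left; linarith
    · right; linarith

theorem esh_swap (dx dy φ ωa ωb : ℝ) : Esh (-dx) (-dy) (φ + π) ωb ωa = -Esh dx dy φ ωa ωb := by
  unfold Esh
  rw [cos_add_pi, sin_add_pi, show φ + π + π - ωa = φ - ωa + 2 * π by ring, supp_add_two_pi,
    psi_add_two_pi]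
  ring

theorem exists_adm (a b : E2) (ωa ωb : ℝ) (h : Sep a b ωa ωb) :
    4 ≤ sq a b ∧ ∃ φ, Adm (b 0 - a 0) (b 1 - a 1) φ ωa ωb := by
  obtain ⟨φ, h⟩ := h
  have h1 := supp_ge_one (φ - ωa)
  have h2 := supp_ge_one (φ + π - ωb)
  have hcs : ((b 0 - a 0) * cos φ + (b 1 - a 1) * sin φ) ^ 2 ≤ sq a b := by
    unfold sq
    have := sin_sq_add_cos_sq φ
    have e : (b 0 - a 0) ^ 2 + (b 1 - a 1) ^ 2
        = ((b 0 - a 0) * cos φ + (b 1 - a 1) * sin φ) ^ 2
          + ((b 0 - a 0) * sin φ - (b 1 - a 1) * cos φ) ^ 2 := by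
      linear_combination (-((b 0 - a 0) ^ 2 + (b 1 - a 1) ^ 2)) * this
    rw [e]
    nlinarith [sq_nonneg ((b 0 - a 0) * sin φ - (b 1 - a 1) * cos φ)]
  have h4 : 4 ≤ sq a b := by
    have h5 : (2:ℝ) ≤ (b 0 - a 0) * cos φ + (b 1 - a 1) * sin φ := by linarith only [h1, h2, h]
    have h6 := pow_le_pow_left₀ (by norm_num) h5 2
    linarith only [h6, hcs]
  refine ⟨h4, ?_⟩
  by_cases hd : sq a b < 2.1284 ^ 2
  · exact ⟨φ, h, Or.inl hd⟩
  · push Not at hd
    set z : ℂ := ⟨b 0 - a 0, b 1 - a 1⟩ with hz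
    have hn : ‖z‖ ^ 2 = sq a b := by
      rw [← Complex.normSq_eq_norm_sq, Complex.normSq_apply]
      simp only [hz, sq]; ring
    have e0 : b 0 - a 0 = ‖z‖ * cos (Complex.arg z) := by rw [Complex.norm_mul_cos_arg]
    have e1 : b 1 - a 1 = ‖z‖ * sin (Complex.arg z) := by rw [Complex.norm_mul_sin_arg]
    refine ⟨Complex.arg z, ?_, Or.inr ?_⟩
    · have s1 := supp_lt (Complex.arg z - ωa)
      have s2 := supp_lt (Complex.arg z + π - ωb)
      have hz2 : 2.1284 ≤ ‖z‖ := by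
        apply le_of_sq_le_sq _ (norm_nonneg _)
        rw [hn]; exact hd
      have e : (b 0 - a 0) * cos (Complex.arg z) + (b 1 - a 1) * sin (Complex.arg z) = ‖z‖ := by
        rw [e0, e1]
        have := sin_sq_add_cos_sq (Complex.arg z)
        linear_combination ‖z‖ * this
      rw [e]; linarith
    · rw [e0, e1]; ring

/-- obtuse receiver on the left of the directed edge -/
def Ob (F : Finset E2) (a b : E2) : Prop :=
  ∃ c, DelTri F 2.13 a b c ∧ sq b c + sq c a < sq a b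

theorem not_both_ob (F : Finset E2) (a b : E2) (h1 : Ob F a b) (h2 : Ob F b a) : False := by
  obtain ⟨c, ⟨-, -, -, hK, o, r, -, ha, hb, hc, hall⟩, ho⟩ := h1
  obtain ⟨c', ⟨-, -, hc'F, hK', -⟩, ho'⟩ := h2
  have hc' := hall c' hc'F
  have hr : 0 ≤ r := by rw [← ha]; exact dist_nonneg
  have ea : (a 0 - o 0) ^ 2 + (a 1 - o 1) ^ 2 = r ^ 2 := by rw [← dist_sq, ha]
  have eb : (b 0 - o 0) ^ 2 + (b 1 - o 1) ^ 2 = r ^ 2 := by rw [← dist_sq, hb]
  have ec : (c 0 - o 0) ^ 2 + (c 1 - o 1) ^ 2 = r ^ 2 := by rw [← dist_sq, hc]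
  have ec' : r ^ 2 ≤ (c' 0 - o 0) ^ 2 + (c' 1 - o 1) ^ 2 := by
    rw [← dist_sq]; exact pow_le_pow_left₀ hr hc' 2
  unfold area3 at hK hK'
  unfold sq at ho ho'
  -- translate to a = 0
  set B0 := b 0 - a 0 with hB0
  set B1 := b 1 - a 1 with hB1
  set O0 := o 0 - a 0 with hO0
  set O1 := o 1 - a 1 with hO1
  set C0 := c 0 - a 0 with hC0
  set C1 := c 1 - a 1 with hC1
  set D0 := c' 0 - a 0 with hD0
  set D1 := c' 1 - a 1 with hD1
  have eo : O0 ^ 2 + O1 ^ 2 = r ^ 2 := by rw [← ea, hO0, hO1]; ring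
  have f1 : B0 * (B0 - 2 * O0) + B1 * (B1 - 2 * O1) = 0 := by
    have : b 0 - o 0 = B0 - O0 := by rw [hB0, hO0]; ring
    have h2 : b 1 - o 1 = B1 - O1 := by rw [hB1, hO1]; ring
    rw [this, h2] at eb
    linarith
  have f2 : C0 ^ 2 + C1 ^ 2 = 2 * (C0 * O0 + C1 * O1) := by
    have : c 0 - o 0 = C0 - O0 := by rw [hC0, hO0]; ring
    have h2 : c 1 - o 1 = C1 - O1 := by rw [hC1, hO1]; ring
    rw [this, h2] at ec
    linarith
  have f3 : 2 * (D0 * O0 + D1 * O1) ≤ D0 ^ 2 + D1 ^ 2 := by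
    have : c' 0 - o 0 = D0 - O0 := by rw [hD0, hO0]; ring
    have h2 : c' 1 - o 1 = D1 - O1 := by rw [hD1, hO1]; ring
    rw [this, h2] at ec'
    linarith
  have g1 : C0 ^ 2 + C1 ^ 2 < C0 * B0 + C1 * B1 := by
    have h1 : c 0 - b 0 = C0 - B0 := by rw [hC0, hB0]; ring
    have h2 : c 1 - b 1 = C1 - B1 := by rw [hC1, hB1]; ring
    have h3 : a 0 - c 0 = -C0 := by rw [hC0]; ring
    have h4 : a 1 - c 1 = -C1 := by rw [hC1]; ring
    rw [h1, h2, h3, h4] at ho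
    linarith
  have g2 : D0 ^ 2 + D1 ^ 2 < D0 * B0 + D1 * B1 := by
    have h1 : b 0 - c' 0 = B0 - D0 := by rw [hD0, hB0]; ring
    have h2 : b 1 - c' 1 = B1 - D1 := by rw [hD1, hB1]; ring
    have h5 : a 0 - b 0 = -B0 := by rw [hB0]; ring
    have h6 : a 1 - b 1 = -B1 := by rw [hB1]; ring
    rw [h1, h2, h5, h6] at ho'
    linarith
  have k1 : 0 < B0 * C1 - B1 * C0 := by linarith
  have k2 : B0 * D1 - B1 * D0 < 0 := by
    have h5 : a 0 - b 0 = -B0 := by rw [hB0]; ring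
    have h6 : a 1 - b 1 = -B1 := by rw [hB1]; ring
    have h1 : c' 0 - b 0 = D0 - B0 := by rw [hD0, hB0]; ring
    have h2 : c' 1 - b 1 = D1 - B1 := by rw [hD1, hB1]; ring
    rw [h1, h2, h5, h6] at hK'
    linarith
  -- lam = (B - 2O) x B
  set lam := B0 * (B1 - 2 * O1) - B1 * (B0 - 2 * O0) with hlam
  have hB : 0 < B0 ^ 2 + B1 ^ 2 := by
    by_contra hcon
    have h1 : B0 ^ 2 = 0 :=
      le_antisymm (by linarith only [sq_nonneg B1, hcon]) (sq_nonneg _)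
    have h2 : B1 ^ 2 = 0 :=
      le_antisymm (by linarith only [sq_nonneg B0, hcon]) (sq_nonneg _)
    have h1' : B0 = 0 := by simpa using h1
    have h2' : B1 = 0 := by simpa using h2
    rw [h1', h2'] at k1; norm_num at k1
  have id1 : ∀ p q : ℝ, (B0 ^ 2 + B1 ^ 2) * (p * (B0 - 2 * O0) + q * (B1 - 2 * O1))
      = lam * (B0 * q - B1 * p) := by
    intro p q
    rw [hlam]
    linear_combination (B0 * p + B1 * q) * f1
  have i1 := id1 C0 C1
  have i2 := id1 D0 D1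
  have j1 : 0 < C0 * (B0 - 2 * O0) + C1 * (B1 - 2 * O1) := by
    have e : C0 * (B0 - 2 * O0) + C1 * (B1 - 2 * O1)
        = (C0 * B0 + C1 * B1) - 2 * (C0 * O0 + C1 * O1) := by ring
    rw [e]; linarith only [f2, g1]
  have j2 : 0 < D0 * (B0 - 2 * O0) + D1 * (B1 - 2 * O1) := by
    have e : D0 * (B0 - 2 * O0) + D1 * (B1 - 2 * O1)
        = (D0 * B0 + D1 * B1) - 2 * (D0 * O0 + D1 * O1) := by ring
    rw [e]; linarith only [f3, g2]
  have l1 : 0 < lam * (B0 * C1 - B1 * C0) := by rw [← i1]; exact mul_pos hB j1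
  have l2 : 0 < lam * (B0 * D1 - B1 * D0) := by rw [← i2]; exact mul_pos hB j2
  have l3 : 0 < lam := (mul_pos_iff_of_pos_right k1).1 l1
  exact absurd l2 (not_lt.2 (mul_neg_of_pos_of_neg l3 k2).le)

/-- the arithmetic of the triangles that have a side longer than `2.3` -/
theorem arith_long (x y z K E1 E2' E3 m : ℝ) (hm : m < 1.81567)
    (hx : 4 ≤ x) (hy : 4 ≤ y) (hz : 4 ≤ z)
    (hnot : ¬ (x ≤ 2.3 ^ 2 ∧ y ≤ 2.3 ^ 2 ∧ z ≤ 2.3 ^ 2))
    (T1 : 1.65 ≤ K)
    (T2a : x ≤ z → y ≤ z → 2.3 ^ 2 ≤ z → z ≤ 3.25 ^ 2 → 1.88 ≤ K)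
    (T2b : y ≤ x → z ≤ x → 2.3 ^ 2 ≤ x → x ≤ 3.25 ^ 2 → 1.88 ≤ K)
    (T2c : z ≤ y → x ≤ y → 2.3 ^ 2 ≤ y → y ≤ 3.25 ^ 2 → 1.88 ≤ K)
    (T3a : z ≤ x + y → x ≤ y + z → y ≤ z + x → 3.25 ^ 2 ≤ z → 2.56 ≤ K)
    (T3b : x ≤ y + z → y ≤ z + x → z ≤ x + y → 3.25 ^ 2 ≤ x → 2.56 ≤ K)
    (T3c : y ≤ z + x → z ≤ x + y → x ≤ y + z → 3.25 ^ 2 ≤ y → 2.56 ≤ K)
    (T4 : 3.25 ^ 2 ≤ x → 3.25 ^ 2 ≤ y → 3.25 ^ 2 ≤ z → 4 ≤ K)
    (T5a : x + y < z → 3.25 ^ 2 ≤ y → 2.6 ≤ K) (T5a' : y + x < z → 3.25 ^ 2 ≤ x → 2.6 ≤ K)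
    (T5b : y + z < x → 3.25 ^ 2 ≤ z → 2.6 ≤ K) (T5b' : z + y < x → 3.25 ^ 2 ≤ y → 2.6 ≤ K)
    (T5c : z + x < y → 3.25 ^ 2 ≤ x → 2.6 ≤ K) (T5c' : x + z < y → 3.25 ^ 2 ≤ z → 2.6 ≤ K)
    (T6a : x + y < z → 3.25 ^ 2 ≤ x → 3.25 ^ 2 ≤ y → False)
    (T6b : y + z < x → 3.25 ^ 2 ≤ y → 3.25 ^ 2 ≤ z → False)
    (T6c : z + x < y → 3.25 ^ 2 ≤ z → 3.25 ^ 2 ≤ x → False)
    (Z1 : z ≤ 2.3 ^ 2 → E1 ≤ 0.03) (Z2 : 2.3 ^ 2 < z → z < 3.25 ^ 2 → E1 ≤ 0)
    (Z3 : 3.25 ^ 2 ≤ z → E1 ≤ 1 / 4) (Z4 : 3.25 ^ 2 ≤ z → x + y < z → E1 ≤ -(1 / 4))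
    (X1 : x ≤ 2.3 ^ 2 → E2' ≤ 0.03) (X2 : 2.3 ^ 2 < x → x < 3.25 ^ 2 → E2' ≤ 0)
    (X3 : 3.25 ^ 2 ≤ x → E2' ≤ 1 / 4) (X4 : 3.25 ^ 2 ≤ x → y + z < x → E2' ≤ -(1 / 4))
    (Y1 : y ≤ 2.3 ^ 2 → E3 ≤ 0.03) (Y2 : 2.3 ^ 2 < y → y < 3.25 ^ 2 → E3 ≤ 0)
    (Y3 : 3.25 ^ 2 ≤ y → E3 ≤ 1 / 4) (Y4 : 3.25 ^ 2 ≤ y → z + x < y → E3 ≤ -(1 / 4)) :
    m + E1 + E2' + E3 ≤ K := by
  have ez : E1 ≤ 0.03 ∨ (3.25 ^ 2 ≤ z) := by
    by_cases h1 : z ≤ 2.3 ^ 2
    · left; exact Z1 h1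
    · by_cases h2 : z < 3.25 ^ 2
      · left; have := Z2 (not_le.1 h1) h2; linarith
      · right; exact not_lt.1 h2
  have ex : E2' ≤ 0.03 ∨ (3.25 ^ 2 ≤ x) := by
    by_cases h1 : x ≤ 2.3 ^ 2
    · left; exact X1 h1
    · by_cases h2 : x < 3.25 ^ 2
      · left; have := X2 (not_le.1 h1) h2; linarith
      · right; exact not_lt.1 h2
  have ey : E3 ≤ 0.03 ∨ (3.25 ^ 2 ≤ y) := by
    by_cases h1 : y ≤ 2.3 ^ 2
    · left; exact Y1 h1
    · by_cases h2 : y < 3.25 ^ 2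
      · left; have := Y2 (not_le.1 h1) h2; linarith
      · right; exact not_lt.1 h2
  by_cases hL : 3.25 ^ 2 ≤ x ∨ 3.25 ^ 2 ≤ y ∨ 3.25 ^ 2 ≤ z
  · by_cases hoz : x + y < z
    · have hz' : 3.25 ^ 2 ≤ z := by rcases hL with h | h | h <;> linarith
      have e1 := Z4 hz' hoz
      rcases ex with h1 | h1
      · rcases ey with h2 | h2
        · linarith
        · have := T5a hoz h2; have := Y3 h2; linarith
      · rcases ey with h2 | h2
        · have := T5a' (by linarith) h1; have := X3 h1; linarith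
        · exact (T6a hoz h1 h2).elim
    by_cases hox : y + z < x
    · have hx' : 3.25 ^ 2 ≤ x := by rcases hL with h | h | h <;> linarith
      have e1 := X4 hx' hox
      rcases ey with h1 | h1
      · rcases ez with h2 | h2
        · linarith
        · have := T5b hox h2; have := Z3 h2; linarith
      · rcases ez with h2 | h2
        · have := T5b' (by linarith) h1; have := Y3 h1; linarith
        · exact (T6b hox h1 h2).elim
    by_cases hoy : z + x < y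
    · have hy' : 3.25 ^ 2 ≤ y := by rcases hL with h | h | h <;> linarith
      have e1 := Y4 hy' hoy
      rcases ez with h1 | h1
      · rcases ex with h2 | h2
        · linarith
        · have := T5c hoy h2; have := X3 h2; linarith
      · rcases ex with h2 | h2
        · have := T5c' (by linarith) h1; have := Z3 h1; linarith
        · exact (T6c hoy h1 h2).elim
    push Not at hoz hox hoy
    by_cases hall : 3.25 ^ 2 ≤ x ∧ 3.25 ^ 2 ≤ y ∧ 3.25 ^ 2 ≤ z
    · obtain ⟨h1, h2, h3⟩ := hall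
      have := T4 h1 h2 h3
      have := X3 h1; have := Y3 h2; have := Z3 h3
      linarith
    · have hK : 2.56 ≤ K := by
        rcases hL with h | h | h
        · exact T3b hox hoy hoz h
        · exact T3c hoy hoz hox h
        · exact T3a hoz hox hoy h
      rcases ex with h1 | h1
      · rcases ey with h2 | h2
        · rcases ez with h3 | h3
          · linarith
          · have := Z3 h3; linarith
        · rcases ez with h3 | h3
          · have := Y3 h2; linarith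
          · have := Z3 h3; have := Y3 h2; linarith
      · rcases ey with h2 | h2
        · rcases ez with h3 | h3
          · have := X3 h1; linarith
          · have := Z3 h3; have := X3 h1; linarith
        · rcases ez with h3 | h3
          · have := Y3 h2; have := X3 h1; linarith
          · exact (hall ⟨h1, h2, h3⟩).elim
  · push Not at hL
    obtain ⟨hx', hy', hz'⟩ := hL
    have hK : 1.88 ≤ K := by
      by_cases h1 : x ≤ z
      · by_cases h2 : y ≤ z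
        · apply T2a h1 h2 _ hz'.le
          by_contra hc
          exact hnot ⟨by linarith, by linarith, by linarith⟩
        · apply T2c (by linarith) (by linarith) _ hy'.le
          by_contra hc
          exact hnot ⟨by linarith, by linarith, by linarith⟩
      · by_cases h2 : y ≤ x
        · apply T2b h2 (by linarith) _ hx'.le
          by_contra hc
          exact hnot ⟨by linarith, by linarith, by linarith⟩
        · apply T2c (by linarith) (by linarith) _ hy'.le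
          by_contra hc
          exact hnot ⟨by linarith, by linarith, by linarith⟩
    have hE : E1 + E2' + E3 ≤ 0.06 := by
      have z0 : z ≤ 2.3 ^ 2 ∨ 2.3 ^ 2 < z := le_or_gt _ _
      have x0 : x ≤ 2.3 ^ 2 ∨ 2.3 ^ 2 < x := le_or_gt _ _
      have y0 : y ≤ 2.3 ^ 2 ∨ 2.3 ^ 2 < y := le_or_gt _ _
      rcases z0 with h1 | h1
      · rcases x0 with h2 | h2
        · rcases y0 with h3 | h3
          · exact (hnot ⟨h2, h3, h1⟩).elim
          · have := Z1 h1; have := X1 h2; have := Y2 h3 hy'; linarith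
        · have := Z1 h1; have := X2 h2 hx'
          rcases y0 with h3 | h3
          · have := Y1 h3; linarith
          · have := Y2 h3 hy'; linarith
      · have := Z2 h1 hz'
        rcases x0 with h2 | h2
        · have := X1 h2
          rcases y0 with h3 | h3
          · have := Y1 h3; linarith
          · have := Y2 h3 hy'; linarith
        · have := X2 h2 hx'
          rcases y0 with h3 | h3
          · have := Y1 h3; linarith
          · have := Y2 h3 hy'; linarith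
    linarith

theorem delTri_rot (F : Finset E2) (R : ℝ) (a b c : E2) (h : DelTri F R a b c) :
    DelTri F R b c a := by
  obtain ⟨ha, hb, hc, hK, o, r, hr, h1, h2, h3, h4⟩ := h
  refine ⟨hb, hc, ha, ?_, o, r, hr, h2, h3, h1, h4⟩
  have : area3 b c a = area3 a b c := by unfold area3; ring
  rw [this]; exact hK

end Pool.Agent.W259.Nona
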