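import Pool.Agent.W259.Nona.Loc

set_option autoImplicit false

open Real Set

namespace Pool.Agent.W259.Nona

open Pool.Agent.Helper658 (dist_sq circ_identity)

open Classical in
/-- the raw short edge term: a chosen admissible normal -/
noncomputable def eraw (F : Finset E2) (ω : E2 → ℝ) (a b : E2) : ℝ :=
  if h : ∃ φ, Adm (b 0 - a 0) (b 1 - a 1) φ (ω a) (ω b) then
    Esh (b 0 - a 0) (b 1 - a 1) h.choose (ω a) (ω b)
  else 0

open Classical in
/-- the short edge term, made antisymmetric -/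
noncomputable def eshort (F : Finset E2) (ω : E2 → ℝ) (a b : E2) : ℝ :=
  if WellOrderingRel a b then eraw F ω a b
  else if WellOrderingRel b a then -eraw F ω b a else 0

open Classical in
/-- the long edge term -/
noncomputable def elong (F : Finset E2) (a b : E2) : ℝ :=
  (if Ob F b a then 1 / 4 else 0) - (if Ob F a b then 1 / 4 else 0)

open Classical in
/-- the edge function -/
noncomputable def EE (F : Finset E2) (ω : E2 → ℝ) (a b : E2) : ℝ :=
  if sq a b ≤ 2.3 ^ 2 then eshort F ω a b else if 3.25 ^ 2 ≤ sq a b then elong F a b else 0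

theorem eshort_anti (F : Finset E2) (ω : E2 → ℝ) (a b : E2) :
    eshort F ω a b = -eshort F ω b a := by
  unfold eshort
  by_cases h1 : WellOrderingRel a b
  · have h2 : ¬ WellOrderingRel b a := fun h => (asymm_of WellOrderingRel h1 h)
    simp [h1, h2]
  · by_cases h2 : WellOrderingRel b a
    · simp [h1, h2]
    · simp [h1, h2]

theorem elong_anti (F : Finset E2) (a b : E2) : elong F a b = -elong F b a := by
  unfold elong; ring

theorem EE_anti (F : Finset E2) (ω : E2 → ℝ) (a b : E2) : EE F ω a b = -EE F ω b a := by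
  unfold EE
  rw [sq_comm b a]
  split_ifs
  · exact eshort_anti F ω a b
  · exact elong_anti F a b
  · simp

theorem eraw_abs (hE : EboundStmt) (F : Finset E2) (ω : E2 → ℝ) (a b : E2) :
    |eraw F ω a b| ≤ 0.03 := by
  unfold eraw
  split_ifs with h
  · exact hE _ _ _ _ _ h.choose_spec
  · norm_num

theorem eshort_abs (hE : EboundStmt) (F : Finset E2) (ω : E2 → ℝ) (a b : E2) :
    |eshort F ω a b| ≤ 0.03 := by
  unfold eshort
  split_ifs with h
  · exact eraw_abs hE F ω a b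
  · rw [abs_neg]; exact eraw_abs hE F ω b a
  · norm_num

theorem elong_abs (F : Finset E2) (a b : E2) : |elong F a b| ≤ 1 / 4 := by
  unfold elong
  split_ifs <;> norm_num

theorem EE_abs (hE : EboundStmt) (F : Finset E2) (ω : E2 → ℝ) (a b : E2) : |EE F ω a b| ≤ 1 := by
  unfold EE
  split_ifs
  · have := eshort_abs hE F ω a b; linarith
  · have := elong_abs F a b; linarith
  · norm_num

theorem EE_short_spec (F : Finset E2) (ω : E2 → ℝ) (a b : E2)
    (hs : Sep a b (ω a) (ω b)) (hs' : Sep b a (ω b) (ω a)) (hne : a ≠ b)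
    (hsq : sq a b ≤ 2.3 ^ 2) :
    ∃ φ, Adm (b 0 - a 0) (b 1 - a 1) φ (ω a) (ω b) ∧
      EE F ω a b = Esh (b 0 - a 0) (b 1 - a 1) φ (ω a) (ω b) := by
  unfold EE
  rw [if_pos hsq]
  unfold eshort
  by_cases h1 : WellOrderingRel a b
  · rw [if_pos h1]
    have h := (exists_adm a b _ _ hs).2
    unfold eraw
    rw [dif_pos h]
    exact ⟨h.choose, h.choose_spec, rfl⟩
  · have h2 : WellOrderingRel b a := by
      rcases trichotomous_of WellOrderingRel a b with h | h | h
      · exact absurd h h1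
      · exact absurd h hne
      · exact h
    rw [if_neg h1, if_pos h2]
    have h := (exists_adm b a _ _ hs').2
    unfold eraw
    rw [dif_pos h]
    refine ⟨h.choose + π, ?_, ?_⟩
    · have := adm_swap _ _ _ _ _ h.choose_spec
      rw [neg_sub, neg_sub] at this
      exact this
    · rw [← esh_swap, neg_sub, neg_sub]

/-- bounds of the edge function on the three edges of a Delaunay triangle -/
theorem EE_bounds (hE : EboundStmt) (F : Finset E2) (ω : E2 → ℝ) (a b c : E2)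
    (hT : DelTri F 2.13 a b c) :
    (sq a b ≤ 2.3 ^ 2 → EE F ω a b ≤ 0.03) ∧ (2.3 ^ 2 < sq a b → sq a b < 3.25 ^ 2 → EE F ω a b ≤ 0) ∧
      (3.25 ^ 2 ≤ sq a b → EE F ω a b ≤ 1 / 4) ∧
      (3.25 ^ 2 ≤ sq a b → sq b c + sq c a < sq a b → EE F ω a b ≤ -(1 / 4)) := by
  refine ⟨fun h => ?_, fun h h' => ?_, fun h => ?_, fun h h' => ?_⟩
  · unfold EE; rw [if_pos h]
    exact (abs_le.1 (eshort_abs hE F ω a b)).2
  · unfold EE; rw [if_neg (not_le.2 h), if_neg (not_le.2 h')]
  · unfold EE; rw [if_neg (by norm_num at h ⊢; linarith), if_pos h]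
    exact (abs_le.1 (elong_abs F a b)).2
  · unfold EE; rw [if_neg (by norm_num at h ⊢; linarith), if_pos h]
    unfold elong
    have h1 : Ob F a b := ⟨c, hT, h'⟩
    have h2 : ¬ Ob F b a := fun h2 => not_both_ob F a b h1 h2
    rw [if_pos h1, if_neg h2]
    norm_num

theorem loc (hE : EboundStmt) (hT1 : TypeIStmt) (hT2 : TypeIIStmt) : LocalStmt := by
  intro F ω hsep
  refine ⟨EE F ω, EE_anti F ω, EE_abs hE F ω, ?_⟩
  intro a b c hT
  have hT' := hT
  obtain ⟨ha, hb, hc, hK, o, r, hr, h1, h2, h3, h4⟩ := hT'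
  have hab : a ≠ b := by
    rintro rfl
    unfold area3 at hK; simp at hK
  have hbc : b ≠ c := by
    rintro rfl
    have : area3 a b b = 0 := by unfold area3; ring
    linarith
  have hca : c ≠ a := by
    rintro rfl
    have : area3 c b c = 0 := by unfold area3; ring
    linarith
  by_cases hshort : sq b c ≤ 2.3 ^ 2 ∧ sq c a ≤ 2.3 ^ 2 ∧ sq a b ≤ 2.3 ^ 2
  · obtain ⟨s1, s2, s3⟩ := hshort
    obtain ⟨φ1, A1, e1⟩ := EE_short_spec F ω a b (hsep a ha b hb hab) (hsep b hb a ha hab.symm) hab s3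
    obtain ⟨φ2, A2, e2⟩ := EE_short_spec F ω b c (hsep b hb c hc hbc) (hsep c hc b hb hbc.symm) hbc s1
    obtain ⟨φ3, A3, e3⟩ := EE_short_spec F ω c a (hsep c hc a ha hca) (hsep a ha c hc hca.symm) hca s2
    have f0 : a 0 - c 0 = -((b 0 - a 0) + (c 0 - b 0)) := by ring
    have f1 : a 1 - c 1 = -((b 1 - a 1) + (c 1 - b 1)) := by ring
    rw [f0, f1] at A3 e3
    have key := hT1 (b 0 - a 0) (b 1 - a 1) (c 0 - b 0) (c 1 - b 1) (ω a) (ω b) (ω c) φ1 φ2 φ3
      (by unfold area3 at hK; linarith) (by unfold sq at s3; exact s3) (by unfold sq at s1; exact s1)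
      (by unfold sq at s2; linarith) A1 A2 A3
    rw [e1, e2, e3]
    have hK2 : ((b 0 - a 0) * (c 1 - b 1) - (b 1 - a 1) * (c 0 - b 0)) / 2 = area3 a b c := by
      unfold area3; ring
    rw [hK2] at key
    exact key
  · have g4 : ∀ p ∈ F, ∀ q ∈ F, p ≠ q → 4 ≤ sq p q := fun p hp q hq hne =>
      (exists_adm p q _ _ (hsep p hp q hq hne)).1
    have x4 := g4 b hb c hc hbc
    have y4 := g4 c hc a ha hca
    have z4 := g4 a ha b hb hab
    have hr0 : 0 ≤ r := by rw [← h1]; exact dist_nonneg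
    have ea : (a 0 - o 0) ^ 2 + (a 1 - o 1) ^ 2 = r ^ 2 := by rw [← dist_sq, h1]
    have eb : (b 0 - o 0) ^ 2 + (b 1 - o 1) ^ 2 = r ^ 2 := by rw [← dist_sq, h2]
    have ec : (c 0 - o 0) ^ 2 + (c 1 - o 1) ^ 2 = r ^ 2 := by rw [← dist_sq, h3]
    have hcirc := circ_identity _ _ _ _ _ _ _ ea eb ec
    have hprod : sq a b * sq b c * sq c a = 16 * (area3 a b c) ^ 2 * r ^ 2 := by
      have e1 : sq a b * sq b c * sq c a = ((a 0 - o 0 - (b 0 - o 0)) ^ 2 + (a 1 - o 1 - (b 1 - o 1)) ^ 2) *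
        ((b 0 - o 0 - (c 0 - o 0)) ^ 2 + (b 1 - o 1 - (c 1 - o 1)) ^ 2) *
        ((c 0 - o 0 - (a 0 - o 0)) ^ 2 + (c 1 - o 1 - (a 1 - o 1)) ^ 2) := by
        unfold sq; ring
      rw [e1, ← hcirc]
      unfold area3
      ring
    have hheron : ∀ p q s : E2, 16 * (area3 p q s) ^ 2
        = 4 * sq q s * sq s p - (sq q s + sq s p - sq p q) ^ 2 := by
      intro p q s; unfold area3 sq; ring
    have k1 : area3 b c a = area3 a b c := by unfold area3; ring
    have k2 : area3 c a b = area3 a b c := by unfold area3; ring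
    have H1 := hheron a b c
    have H2 := hheron b c a
    have H3 := hheron c a b
    rw [k1] at H2
    rw [k2] at H3
    set K := area3 a b c with hKdef
    set x := sq b c with hx
    set y := sq c a with hy
    set z := sq a b with hz
    have P1 := hT2 x y z K r x4 y4 z4 hK H1 hr0 hr (by linarith)
    have P2 := hT2 y z x K r y4 z4 x4 hK H2 hr0 hr (by linarith)
    have P3 := hT2 z x y K r z4 x4 y4 hK H3 hr0 hr (by linarith)
    have P1' := hT2 y x z K r y4 x4 z4 hK (by linarith) hr0 hr (by linarith)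
    have P2' := hT2 z y x K r z4 y4 x4 hK (by linarith) hr0 hr (by linarith)
    have P3' := hT2 x z y K r x4 z4 y4 hK (by linarith) hr0 hr (by linarith)
    obtain ⟨Z1, Z2, Z3, Z4⟩ := EE_bounds hE F ω a b c hT
    obtain ⟨X1, X2, X3, X4⟩ := EE_bounds hE F ω b c a (delTri_rot F _ a b c hT)
    obtain ⟨Y1, Y2, Y3, Y4⟩ := EE_bounds hE F ω c a b (delTri_rot F _ b c a (delTri_rot F _ a b c hT))
    rw [← hz] at Z1 Z2 Z3 Z4 X4 Y4
    rw [← hx] at X1 X2 X3 X4 Z4 Y4
    rw [← hy] at Y1 Y2 Y3 Y4 X4 Z4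
    obtain ⟨p1, p2, p3, p4, p5, p6⟩ := P1
    obtain ⟨-, q2, q3, -, q5, q6⟩ := P2
    obtain ⟨-, r2, r3, -, r5, r6⟩ := P3
    obtain ⟨-, -, -, -, p5', -⟩ := P1'
    obtain ⟨-, -, -, -, q5', -⟩ := P2'
    obtain ⟨-, -, -, -, r5', -⟩ := P3'
    exact arith_long x y z K _ _ _ mu mu_lt x4 y4 z4 hshort p1 p2 q2 r2 p3 q3 r3 p4
      p5 p5' q5 q5' r5 r5' p6 q6 r6 Z1 Z2 Z3 Z4 X1 X2 X3 X4 Y1 Y2 Y3 Y4

end Pool.Agent.W259.Nona
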