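import Pool.Agent.W259.Nona.Basic

set_option autoImplicit false

/-! Statements of the steps of the proof (each proved in its own file). -/

open Real MeasureTheory Metric Set

namespace Pool.Agent.W259.Nona

/-- the corner inequality -/
def CornerStmt : Prop := ∀ t α : ℝ, 0 < α → α ≤ 1.93 →
  9 * tan (π / 9) / (2 * π) * α + psi (t + α) - psi t + GG α ≤ wed (supp t) (supp (t + α)) α

/-- the node inequality -/
def NodeStmt : Prop := ∀ α β γ : ℝ, 0 < α → 0 < β → 0 < γ → α ≤ 1.93 → β ≤ 1.93 → γ ≤ 1.93 →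
  α + β + γ = π → 0.1778 ≤ GG α + GG β + GG γ

/-- bound for the edge term -/
def EboundStmt : Prop := ∀ dx dy φ ωa ωb : ℝ, Adm dx dy φ ωa ωb →
  |Esh dx dy φ ωa ωb| ≤ 0.03

/-- the algebraic identity -/
def IdentStmt : Prop := ∀ p1 p2 q1 q2 r1 r2 u1 u2 v1 v2 a b c d e f : ℝ,
  p1 ^ 2 + p2 ^ 2 = 1 → q1 ^ 2 + q2 ^ 2 = 1 → r1 ^ 2 + r2 ^ 2 = 1 →
  r1 * p2 - r2 * p1 ≠ 0 → p1 * q2 - p2 * q1 ≠ 0 → q1 * r2 - q2 * r1 ≠ 0 →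
  a + b = p1 * u1 + p2 * u2 → c + d = q1 * v1 + q2 * v2 →
  e + f = -(r1 * (u1 + v1) + r2 * (u2 + v2)) →
  (u1 * v2 - u2 * v1) / 2 =
    (2 * a * f + (a ^ 2 + f ^ 2) * (p1 * r1 + p2 * r2)) / (2 * (r1 * p2 - r2 * p1)) +
    (2 * b * c + (b ^ 2 + c ^ 2) * (p1 * q1 + p2 * q2)) / (2 * (p1 * q2 - p2 * q1)) +
    (2 * d * e + (d ^ 2 + e ^ 2) * (q1 * r1 + q2 * r2)) / (2 * (q1 * r2 - q2 * r1)) +
    ((u1 * p2 - u2 * p1) * (a - b) + (v1 * q2 - v2 * q1) * (c - d)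
      - ((u1 + v1) * r2 - (u2 + v2) * r1) * (e - f)) / 2 +
    (a * (q1 * r2 - q2 * r1) + (q1 * u1 + q2 * u2 + c) * (r1 * p2 - r2 * p1)
      + (r1 * (u1 + v1) + r2 * (u2 + v2) + e) * (p1 * q2 - p2 * q1)) ^ 2
      / (2 * (r1 * p2 - r2 * p1) * (p1 * q2 - p2 * q1) * (q1 * r2 - q2 * r1))

/-- monotonicity of the corner area -/
def MonoStmt : Prop := ∀ h k s t α : ℝ, 0 < α → α < π → 1 ≤ s → 1 ≤ t → s ≤ h → t ≤ k →
  h * cos α ≤ 1 → k * cos α ≤ 1 → wed s t α ≤ wed h k α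

/-- the triangle inequality for triangles with three short sides; the triangle has vertices
`0`, `(u1, u2)`, `(u1 + v1, u2 + v2)` -/
def TypeIStmt : Prop := ∀ u1 u2 v1 v2 ω1 ω2 ω3 φ1 φ2 φ3 : ℝ,
  0 < u1 * v2 - u2 * v1 →
  u1 ^ 2 + u2 ^ 2 ≤ 2.3 ^ 2 → v1 ^ 2 + v2 ^ 2 ≤ 2.3 ^ 2 → (u1 + v1) ^ 2 + (u2 + v2) ^ 2 ≤ 2.3 ^ 2 →
  Adm u1 u2 φ1 ω1 ω2 → Adm v1 v2 φ2 ω2 ω3 → Adm (-(u1 + v1)) (-(u2 + v2)) φ3 ω3 ω1 →
  mu + Esh u1 u2 φ1 ω1 ω2 + Esh v1 v2 φ2 ω2 ω3 + Esh (-(u1 + v1)) (-(u2 + v2)) φ3 ω3 ω1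
    ≤ (u1 * v2 - u2 * v1) / 2

/-- area bounds for the other triangles; `x`, `y`, `z` are the squares of the side lengths -/
def TypeIIStmt : Prop := ∀ x y z K r : ℝ, 4 ≤ x → 4 ≤ y → 4 ≤ z → 0 < K →
  16 * K ^ 2 = 4 * x * y - (x + y - z) ^ 2 → 0 ≤ r → r ≤ 2.13 → x * y * z = 16 * K ^ 2 * r ^ 2 →
  1.65 ≤ K ∧
  (x ≤ z → y ≤ z → 2.3 ^ 2 ≤ z → z ≤ 3.25 ^ 2 → 1.88 ≤ K) ∧
  (z ≤ x + y → x ≤ y + z → y ≤ z + x → 3.25 ^ 2 ≤ z → 2.56 ≤ K) ∧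
  (3.25 ^ 2 ≤ x → 3.25 ^ 2 ≤ y → 3.25 ^ 2 ≤ z → 4 ≤ K) ∧
  (x + y < z → 3.25 ^ 2 ≤ y → 2.6 ≤ K) ∧
  (x + y < z → 3.25 ^ 2 ≤ x → 3.25 ^ 2 ≤ y → False)

/-- existence of the antisymmetric edge function -/
def LocalStmt : Prop := ∀ (F : Finset E2) (ω : E2 → ℝ),
  (∀ a ∈ F, ∀ b ∈ F, a ≠ b → Sep a b (ω a) (ω b)) →
  ∃ E : E2 → E2 → ℝ, (∀ a b, E a b = -E b a) ∧ (∀ a b, |E a b| ≤ 1) ∧
    ∀ a b c, DelTri F 2.13 a b c → mu + E a b + E b c + E c a ≤ area3 a b c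

/-- uniqueness of the left triangle of a directed edge -/
def UniqStmt : Prop := ∀ (F : Finset E2) (R : ℝ) (a b c d : E2), Gen F →
  DelTri F R a b c → DelTri F R a b d → c = d

/-- existence of the triangle on the other side of an edge -/
def AdjStmt : Prop := ∀ (F : Finset E2) (a b c : E2), Gen F → DelTri F 2.13 a b c →
  (∀ x ∈ closedBall a 8, ∃ p ∈ F, dist p x ≤ 2.13) → ∃ d, DelTri F 2.13 b a d

/-- every point of `F` well inside is the middle vertex of at least two triangles; the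
functional `p 0 + t * p 1` is injective on `F` -/
def MidStmt : Prop := ∀ (F : Finset E2) (t : ℝ) (a : E2), Gen F →
  (∀ p ∈ F, ∀ q ∈ F, p 0 + t * p 1 = q 0 + t * q 1 → p = q) → a ∈ F →
  (∀ x ∈ closedBall a 8, ∃ p ∈ F, dist p x ≤ 2.13) →
  ∃ b c b' c', DelTri F 2.13 a b c ∧ DelTri F 2.13 a b' c' ∧ (b, c) ≠ (b', c') ∧
    (b 0 + t * b 1 - (a 0 + t * a 1)) * (c 0 + t * c 1 - (a 0 + t * a 1)) < 0 ∧
    (b' 0 + t * b' 1 - (a 0 + t * a 1)) * (c' 0 + t * c' 1 - (a 0 + t * a 1)) < 0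

/-- the area of finitely many different Delaunay triangles -/
def AreaStmt : Prop := ∀ (F : Finset E2) (R : ℝ) (T : Finset (E2 × E2 × E2)) (B : Set E2),
  Gen F → (∀ t ∈ T, DelTri F R t.1 t.2.1 t.2.2) →
  (∀ t ∈ T, ∀ t' ∈ T, ({t.1, t.2.1, t.2.2} : Set E2) = {t'.1, t'.2.1, t'.2.2} → t = t') →
  (∀ t ∈ T, convexHull ℝ {t.1, t.2.1, t.2.2} ⊆ B) →
  ENNReal.ofReal (∑ t ∈ T, area3 t.1 t.2.1 t.2.2) ≤ volume B

/-- the global counting statement -/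
def GlobalStmt : Prop := ∃ K : ℝ, ∀ (F : Finset E2) (E : E2 → E2 → ℝ) (s : ℝ), 1 ≤ s → Gen F →
  (∀ a ∈ F, ∀ b ∈ F, a ≠ b → 2 ≤ dist a b) →
  (∀ x ∈ closedBall (0 : E2) (s + 20), ∃ p ∈ F, dist p x ≤ 2.13) →
  (∀ a b, E a b = -E b a) → (∀ a b, |E a b| ≤ 1) →
  (∀ a b c, DelTri F 2.13 a b c → mu + E a b + E b c + E c a ≤ area3 a b c) →
  2 * mu * (F.filter (fun p => ‖p‖ ≤ s)).card ≤ π * (s + 6) ^ 2 + K * s

/-- two nonagons with disjoint interiors are separated -/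
def SepStmt : Prop := ∀ (a b : E2) (ωa ωb : ℝ),
  Disjoint (interior (body a ωa)) (interior (body b ωb)) → Sep a b ωa ωb

/-- congruent copies of the nonagon are nonagons of the same form -/
def IsomStmt : Prop := ∀ f : E2 ≃ᵢ E2, ∃ c ω, f '' body 0 0 = body c ω

/-- area and shape of the nonagon -/
def ShapeStmt : Prop :=
  (∀ c ω, volume (body c ω) ≤ ENNReal.ofReal (9 * tan (π / 9))) ∧
  (∀ c ω, Convex ℝ (body c ω) ∧ IsCompact (body c ω) ∧ (interior (body c ω)).Nonempty ∧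
    c ∈ body c ω)

/-- saturation: a separated finite family can be extended to one that covers a ball -/
def SaturateStmt : Prop := ∀ (F : Finset E2) (ω : E2 → ℝ) (s : ℝ),
  (∀ a ∈ F, ∀ b ∈ F, a ≠ b → Sep a b (ω a) (ω b)) →
  ∃ F' : Finset E2, F ⊆ F' ∧ (∀ a ∈ F', ∀ b ∈ F', a ≠ b → Sep a b (ω a) (ω b)) ∧
    ∀ x ∈ closedBall (0 : E2) s, ∃ p ∈ F', dist p x ≤ 2.1285

/-- perturbation into a family without four cocircular points -/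
def GenericStmt : Prop := ∀ (F : Finset E2) (ε : ℝ), 0 < ε →
  (∀ a ∈ F, ∀ b ∈ F, a ≠ b → 2 * ε < dist a b) →
  ∃ g : E2 → E2, (∀ a ∈ F, dist (g a) a ≤ ε) ∧ Gen (F.image g)

end Pool.Agent.W259.Nona
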