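import Mathlib

set_option autoImplicit false

open Real Set

namespace Pool.Agent.W259.Nona

theorem nonneg_of_hasDeriv (f f' : ℝ → ℝ) (h0 : f 0 = 0) (hd : ∀ x, HasDerivAt f (f' x) x)
    (hn : ∀ x, 0 ≤ x → 0 ≤ f' x) (x : ℝ) (hx : 0 ≤ x) : 0 ≤ f x := by
  have hmono : MonotoneOn f (Ici 0) := by
    apply monotoneOn_of_deriv_nonneg (convex_Ici 0)
    · exact fun y _ => (hd y).continuousAt.continuousWithinAt
    · exact fun y _ => (hd y).differentiableAt.differentiableWithinAt
    · intro y hy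
      rw [interior_Ici] at hy
      rw [(hd y).deriv]
      exact hn y (le_of_lt hy)
  have := hmono (mem_Ici.2 le_rfl) (mem_Ici.2 hx) hx
  rw [h0] at this
  exact this

theorem sin_ge_T3 (x : ℝ) (hx : 0 ≤ x) : x - x ^ 3 / 6 ≤ sin x := by
  have h := nonneg_of_hasDeriv (fun x => sin x - (x - x ^ 3 / 6))
    (fun x => cos x - (1 - x ^ 2 / 2)) (by simp) (by
      intro x
      have h1 := (hasDerivAt_sin x).sub ((hasDerivAt_id x).sub ((hasDerivAt_pow 3 x).div_const 6))
      exact h1.congr_deriv (by push_cast; ring)) (by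
      intro x _
      have := one_sub_sq_div_two_le_cos (x := x)
      linarith) x hx
  linarith

theorem cos_le_T4 (x : ℝ) (hx : 0 ≤ x) : cos x ≤ 1 - x ^ 2 / 2 + x ^ 4 / 24 := by
  have h := nonneg_of_hasDeriv (fun x => 1 - x ^ 2 / 2 + x ^ 4 / 24 - cos x)
    (fun x => sin x - (x - x ^ 3 / 6)) (by simp) (by
      intro x
      have h1 := (((hasDerivAt_const x (1:ℝ)).sub ((hasDerivAt_pow 2 x).div_const 2)).add
        ((hasDerivAt_pow 4 x).div_const 24)).sub (hasDerivAt_cos x)
      exact h1.congr_deriv (by push_cast; ring)) (by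
      intro x hx
      have := sin_ge_T3 x hx
      linarith) x hx
  linarith

theorem sin_le_T5 (x : ℝ) (hx : 0 ≤ x) : sin x ≤ x - x ^ 3 / 6 + x ^ 5 / 120 := by
  have h := nonneg_of_hasDeriv (fun x => x - x ^ 3 / 6 + x ^ 5 / 120 - sin x)
    (fun x => 1 - x ^ 2 / 2 + x ^ 4 / 24 - cos x) (by simp) (by
      intro x
      have h1 := (((hasDerivAt_id x).sub ((hasDerivAt_pow 3 x).div_const 6)).add
        ((hasDerivAt_pow 5 x).div_const 120)).sub (hasDerivAt_sin x)
      exact h1.congr_deriv (by push_cast; ring)) (by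
      intro x hx
      have := cos_le_T4 x hx
      linarith) x hx
  linarith

theorem cos_ge_T6 (x : ℝ) (hx : 0 ≤ x) : 1 - x ^ 2 / 2 + x ^ 4 / 24 - x ^ 6 / 720 ≤ cos x := by
  have h := nonneg_of_hasDeriv (fun x => cos x - (1 - x ^ 2 / 2 + x ^ 4 / 24 - x ^ 6 / 720))
    (fun x => x - x ^ 3 / 6 + x ^ 5 / 120 - sin x) (by simp) (by
      intro x
      have h1 := (hasDerivAt_cos x).sub ((((hasDerivAt_const x (1:ℝ)).sub
        ((hasDerivAt_pow 2 x).div_const 2)).add
        ((hasDerivAt_pow 4 x).div_const 24)).sub ((hasDerivAt_pow 6 x).div_const 720))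
      exact h1.congr_deriv (by push_cast; ring)) (by
      intro x hx
      have := sin_le_T5 x hx
      linarith) x hx
  linarith

theorem sin_ge_T7 (x : ℝ) (hx : 0 ≤ x) : x - x ^ 3 / 6 + x ^ 5 / 120 - x ^ 7 / 5040 ≤ sin x := by
  have h := nonneg_of_hasDeriv (fun x => sin x - (x - x ^ 3 / 6 + x ^ 5 / 120 - x ^ 7 / 5040))
    (fun x => cos x - (1 - x ^ 2 / 2 + x ^ 4 / 24 - x ^ 6 / 720)) (by simp) (by
      intro x
      have h1 := (hasDerivAt_sin x).sub ((((hasDerivAt_id x).sub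
        ((hasDerivAt_pow 3 x).div_const 6)).add
        ((hasDerivAt_pow 5 x).div_const 120)).sub ((hasDerivAt_pow 7 x).div_const 5040))
      exact h1.congr_deriv (by push_cast; ring)) (by
      intro x hx
      have := cos_ge_T6 x hx
      linarith) x hx
  linarith

theorem cos_le_T8 (x : ℝ) (hx : 0 ≤ x) :
    cos x ≤ 1 - x ^ 2 / 2 + x ^ 4 / 24 - x ^ 6 / 720 + x ^ 8 / 40320 := by
  have h := nonneg_of_hasDeriv
    (fun x => 1 - x ^ 2 / 2 + x ^ 4 / 24 - x ^ 6 / 720 + x ^ 8 / 40320 - cos x)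
    (fun x => sin x - (x - x ^ 3 / 6 + x ^ 5 / 120 - x ^ 7 / 5040)) (by simp) (by
      intro x
      have h1 := ((((((hasDerivAt_const x (1:ℝ)).sub
        ((hasDerivAt_pow 2 x).div_const 2)).add
        ((hasDerivAt_pow 4 x).div_const 24)).sub ((hasDerivAt_pow 6 x).div_const 720))).add
        ((hasDerivAt_pow 8 x).div_const 40320)).sub (hasDerivAt_cos x)
      exact h1.congr_deriv (by push_cast; ring)) (by
      intro x hx
      have := sin_ge_T7 x hx
      linarith) x hx
  linarith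

end Pool.Agent.W259.Nona
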