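import Pool.Agent.W259.Nona.Stmts
import Pool.Agent.W259.Nona.Taylor

set_option autoImplicit false

open Real Set

namespace Pool.Agent.W259.Nona

/-! ### numerical cosines -/

theorem cos_035 : cos 0.35 < 2 / 2.1284 := by
  have := cos_le_T4 0.35 (by norm_num)
  norm_num at this ⊢; linarith

theorem cos_08994 : 0.622 ≤ cos 0.8994 := by
  have := cos_ge_T6 0.8994 (by norm_num)
  norm_num at this ⊢; linarith

theorem cos_0934 : 0.59446 ≤ cos 0.934 := by
  have := cos_ge_T6 0.934 (by norm_num)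
  norm_num at this ⊢; linarith

theorem cos_0978 : 0.55852 ≤ cos 0.978 := by
  have := cos_ge_T6 0.978 (by norm_num)
  norm_num at this ⊢; linarith

theorem cos_12253 : cos 1.2253 ≤ 0.33874 := by
  have := cos_le_T8 1.2253 (by norm_num)
  norm_num at this ⊢; linarith

theorem cos_05494 : cos 0.5494 ≤ 0.8529 := by
  have := cos_le_T4 0.5494 (by norm_num)
  norm_num at this ⊢; linarith

theorem cos_0584 : cos 0.584 ≤ 0.8344 := by
  have := cos_le_T4 0.584 (by norm_num)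
  norm_num at this ⊢; linarith

/-! ### polar coordinates -/

theorem exists_polar (x y : ℝ) (h : 0 < x ^ 2 + y ^ 2) :
    ∃ d δ : ℝ, 0 < d ∧ d ^ 2 = x ^ 2 + y ^ 2 ∧ x = d * cos δ ∧ y = d * sin δ := by
  set z : ℂ := ⟨x, y⟩ with hz
  have hz0 : z ≠ 0 := by
    intro h0
    have h1 : z.re = 0 := by rw [h0]; simp
    have h2 : z.im = 0 := by rw [h0]; simp
    simp only [hz] at h1 h2
    rw [h1, h2] at h
    norm_num at h
  refine ⟨‖z‖, Complex.arg z, norm_pos_iff.2 hz0, ?_, ?_, ?_⟩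
  · rw [← Complex.normSq_eq_norm_sq, Complex.normSq_apply]
    simp only [hz]; ring
  · rw [Complex.norm_mul_cos_arg]
  · rw [Complex.norm_mul_sin_arg]

theorem exists_reduce_sin (θ : ℝ) (h : 0 < sin θ) :
    ∃ k : ℤ, 0 < θ + 2 * π * k ∧ θ + 2 * π * k < π := by
  have hp : (0:ℝ) < 2 * π := by positivity
  refine ⟨-⌊θ / (2 * π)⌋, ?_⟩
  set k := ⌊θ / (2 * π)⌋ with hk
  have h1 : (k:ℝ) ≤ θ / (2 * π) := Int.floor_le _
  have h2 : θ / (2 * π) < k + 1 := Int.lt_floor_add_one _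
  rw [le_div_iff₀ hp] at h1
  rw [div_lt_iff₀ hp] at h2
  have e : sin (θ + 2 * π * ((-k : ℤ) : ℝ)) = sin θ := by
    rw [show θ + 2 * π * ((-k : ℤ) : ℝ) = θ - k * (2 * π) by push_cast; ring]
    exact sin_sub_int_mul_two_pi θ k
  push_cast at e ⊢
  set y := θ + 2 * π * -(k:ℝ) with hy
  have y0 : 0 ≤ y := by rw [hy]; linarith
  have y2 : y < 2 * π := by rw [hy]; linarith
  rw [← e] at h
  constructor
  · rcases y0.lt_or_eq with h3 | h3
    · exact h3
    · rw [← h3] at h; simp at h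
  · by_contra hc
    push Not at hc
    have : sin y ≤ 0 := by
      have h4 : sin y = -sin (y - π) := by rw [sin_sub_pi]; ring
      rw [h4]
      have := sin_nonneg_of_nonneg_of_le_pi (x := y - π) (by linarith) (by linarith)
      linarith
    linarith

theorem exists_reduce_round (θ : ℝ) :
    ∃ k : ℤ, -π ≤ θ + 2 * π * k ∧ θ + 2 * π * k ≤ π := by
  have hp : (0:ℝ) < 2 * π := by positivity
  refine ⟨-round (θ / (2 * π)), ?_⟩
  have h := abs_sub_round (θ / (2 * π))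
  rw [abs_le] at h
  obtain ⟨h1, h2⟩ := h
  have e : θ + 2 * π * ((-round (θ / (2 * π)) : ℤ) : ℝ)
      = 2 * π * (θ / (2 * π) - round (θ / (2 * π))) := by
    push_cast
    field_simp
    ring
  rw [e]
  constructor <;> nlinarith [pi_pos]

/-- reduction of the admissible normal to a small deviation -/
theorem exists_beta (d δ φ ωa ωb : ℝ) (hd : 0 < d)
    (h : Adm (d * cos δ) (d * sin δ) φ ωa ωb) :
    ∃ (β : ℝ) (k : ℤ), φ = δ + β + 2 * π * k ∧ |β| ≤ 0.35 ∧ (d < 2.1284 ∨ β = 0) ∧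
      supp (φ - ωa) + supp (φ + π - ωb) ≤ d * cos β := by
  obtain ⟨h1, h2⟩ := h
  obtain ⟨k, hk1, hk2⟩ := exists_reduce_round (φ - δ)
  set β := φ - δ + 2 * π * k with hβ
  have ecos : cos β = cos (φ - δ) := by
    rw [hβ, show φ - δ + 2 * π * k = φ - δ + k * (2 * π) by ring]
    exact cos_add_int_mul_two_pi _ _
  have esin : sin β = sin (φ - δ) := by
    rw [hβ, show φ - δ + 2 * π * k = φ - δ + k * (2 * π) by ring]
    exact sin_add_int_mul_two_pi _ _
  have hn : d * cos δ * cos φ + d * sin δ * sin φ = d * cos β := by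
    rw [ecos, cos_sub]; ring
  have hs1 := supp_ge_one (φ - ωa)
  have hs2 := supp_ge_one (φ + π - ωb)
  rw [hn] at h1
  have hc2 : 2 ≤ d * cos β := by linarith
  have hcpos : 0 < cos β := by
    by_contra hc
    push Not at hc
    nlinarith
  refine ⟨β, -k, by push_cast; rw [hβ]; ring, ?_⟩
  have e2 : (d * cos δ) ^ 2 + (d * sin δ) ^ 2 = d ^ 2 := by
    have := sin_sq_add_cos_sq δ
    linear_combination d ^ 2 * this
  rw [e2] at h2
  rcases h2 with h2 | h2
  · have hd2 : d < 2.1284 := lt_of_pow_lt_pow_left₀ 2 (by norm_num) h2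
    have hcb : 2 / 2.1284 < cos β := by
      rw [div_lt_iff₀ (by norm_num)]
      nlinarith
    refine ⟨?_, Or.inl hd2, h1⟩
    by_contra hc
    push Not at hc
    have h5 : cos |β| ≤ cos 0.35 := by
      apply cos_le_cos_of_nonneg_of_le_pi (by norm_num) _ hc.le
      rw [abs_le]; exact ⟨hk1, hk2⟩
    rw [cos_abs] at h5
    have := cos_035
    linarith
  · have hs : sin (φ - δ) = 0 := by
      have : d * sin (φ - δ) = 0 := by
        rw [sin_sub]; linarith
      rcases mul_eq_zero.1 this with h | h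
      · exact absurd h hd.ne'
      · exact h
    rw [← esin] at hs
    have hβ0 : β = 0 := by
      by_contra hne
      rcases lt_or_gt_of_ne hne with hlt | hgt
      · rcases hk1.lt_or_eq with h6 | h6
        · have := sin_neg_of_neg_of_neg_pi_lt hlt h6
          linarith
        · rw [← h6] at hcpos
          simp at hcpos
          linarith
      · rcases hk2.lt_or_eq with h6 | h6
        · have := sin_pos_of_pos_of_lt_pi hgt h6
          linarith
        · rw [h6] at hcpos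
          simp at hcpos
          linarith
    rw [hβ0]
    rw [hβ0] at h1
    exact ⟨by norm_num, Or.inr rfl, h1⟩

/-- `cos A` in a triangle with sides in `[2, 2.3]` -/
theorem cosA_bounds (x y z C : ℝ) (hx : 2 ≤ x) (hy : 2 ≤ y) (hz : 2 ≤ z) (hx' : x ≤ 2.3)
    (hy' : y ≤ 2.3) (hz' : z ≤ 2.3) (h : z ^ 2 = x ^ 2 + y ^ 2 - 2 * x * y * C) :
    0.33874 ≤ C ∧ C ≤ 0.622 ∧ (x < 2.1284 → C ≤ 0.59446) ∧ (y < 2.1284 → C ≤ 0.59446) ∧
      (x < 2.1284 → y < 2.1284 → C ≤ 0.55852) := by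
  have hxy : 0 < 2 * x * y := by positivity
  have e : C = (x ^ 2 + y ^ 2 - z ^ 2) / (2 * x * y) := by
    field_simp; linarith
  have hz2 : z ^ 2 ≤ 2.3 ^ 2 := by nlinarith
  have hz3 : 4 ≤ z ^ 2 := by nlinarith
  refine ⟨?_, ?_, ?_, ?_, ?_⟩
  · rw [e, le_div_iff₀ hxy]
    nlinarith [mul_nonneg (sub_nonneg.2 hx) (sub_nonneg.2 hy)]
  · rw [e, div_le_iff₀ hxy]
    nlinarith [mul_nonneg (sub_nonneg.2 hx) (sub_nonneg.2 hx'), mul_nonneg (sub_nonneg.2 hy) (sub_nonneg.2 hy'),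
      mul_nonneg (sub_nonneg.2 hx') (sub_nonneg.2 hy'), mul_nonneg (sub_nonneg.2 hx) (sub_nonneg.2 hy),
      mul_nonneg (sub_nonneg.2 hx') (sub_nonneg.2 hy), mul_nonneg (sub_nonneg.2 hx) (sub_nonneg.2 hy')]
  · intro hx''
    rw [e, div_le_iff₀ hxy]
    nlinarith [mul_nonneg (sub_nonneg.2 hx) (sub_nonneg.2 hx''.le), mul_nonneg (sub_nonneg.2 hy) (sub_nonneg.2 hy'),
      mul_nonneg (sub_nonneg.2 hx''.le) (sub_nonneg.2 hy'), mul_nonneg (sub_nonneg.2 hx) (sub_nonneg.2 hy),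
      mul_nonneg (sub_nonneg.2 hx''.le) (sub_nonneg.2 hy), mul_nonneg (sub_nonneg.2 hx) (sub_nonneg.2 hy')]
  · intro hx''
    rw [e, div_le_iff₀ hxy]
    nlinarith [mul_nonneg (sub_nonneg.2 hy) (sub_nonneg.2 hx''.le), mul_nonneg (sub_nonneg.2 hx) (sub_nonneg.2 hx'),
      mul_nonneg (sub_nonneg.2 hx''.le) (sub_nonneg.2 hx'), mul_nonneg (sub_nonneg.2 hx) (sub_nonneg.2 hy),
      mul_nonneg (sub_nonneg.2 hx''.le) (sub_nonneg.2 hx), mul_nonneg (sub_nonneg.2 hy) (sub_nonneg.2 hx')]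
  · intro hx'' hy''
    rw [e, div_le_iff₀ hxy]
    nlinarith [mul_nonneg (sub_nonneg.2 hx) (sub_nonneg.2 hx''.le), mul_nonneg (sub_nonneg.2 hy) (sub_nonneg.2 hy''.le),
      mul_nonneg (sub_nonneg.2 hx''.le) (sub_nonneg.2 hy''.le), mul_nonneg (sub_nonneg.2 hx) (sub_nonneg.2 hy),
      mul_nonneg (sub_nonneg.2 hx''.le) (sub_nonneg.2 hy), mul_nonneg (sub_nonneg.2 hx) (sub_nonneg.2 hy''.le)]

theorem angle_ge (A a C : ℝ) (hA0 : 0 ≤ A) (ha : a ≤ π) (h1 : cos A ≤ C)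
    (h2 : C ≤ cos a) : a ≤ A := by
  by_contra hc
  push Not at hc
  have := cos_lt_cos_of_nonneg_of_le_pi hA0 ha hc
  linarith

/-- numerical function of the close case: `(2.1284 cos b - 1) cos (0.628 - b) ≤ 1` -/
theorem hcos_close (b : ℝ) (hb : 0 ≤ b) (hb' : b ≤ 0.35) :
    (2.1284 * cos b - 1) * cos (0.628 - b) ≤ 1 := by
  have e1 : 2 * cos b * cos (0.628 - b) = cos 0.628 + cos (2 * b - 0.628) := by
    have h1 := cos_add b (0.628 - b)
    have h2 := cos_sub b (0.628 - b)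
    rw [show b + (0.628 - b) = (0.628 : ℝ) by ring] at h1
    rw [show b - (0.628 - b) = 2 * b - (0.628 : ℝ) by ring] at h2
    rw [h1, h2]; ring
  have e2 : (2.1284 * cos b - 1) * cos (0.628 - b)
      = 1.0642 * (cos 0.628 + cos (2 * b - 0.628)) - cos (0.628 - b) := by
    rw [← e1]; ring
  rw [e2]
  have h1 : cos 0.628 ≤ 0.8093 := by
    have := cos_le_T4 0.628 (by norm_num)
    norm_num at this ⊢; linarith
  have h2 : cos (2 * b - 0.628) ≤ 1 := cos_le_one _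
  -- for b with 0.628 - b ≤ 0.386
  by_cases hb2 : 0.25 ≤ b
  · have h3 : 1 - (0.628 - b) ^ 2 / 2 ≤ cos (0.628 - b) := one_sub_sq_div_two_le_cos
    nlinarith
  · push Not at hb2
    have h3 : 1 - (0.628 - b) ^ 2 / 2 ≤ cos (0.628 - b) := one_sub_sq_div_two_le_cos
    have h4 : cos (2 * b - 0.628) ≤ 1 - (0.628 - 2 * b) ^ 2 / 2 + (0.628 - 2 * b) ^ 4 / 24 := by
      rw [← cos_neg, show -(2 * b - 0.628) = (0.628:ℝ) - 2 * b by ring]
      exact cos_le_T4 _ (by linarith)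
    have h5 : (0.628 - 2 * b) ^ 4 ≤ 0.628 ^ 2 * (0.628 - 2 * b) ^ 2 := by
      have : (0.628 - 2 * b) ^ 2 ≤ 0.628 ^ 2 := by nlinarith
      nlinarith [sq_nonneg (0.628 - 2 * b)]
    nlinarith

/-- the condition of the monotonicity lemma -/
theorem hcos_le_one (h d1 d2 z A α β1 β2 : ℝ) (hd1 : 2 ≤ d1) (hd1' : d1 ≤ 2.3)
    (hd2 : 2 ≤ d2) (hd2' : d2 ≤ 2.3) (hz : 2 ≤ z) (hz' : z ≤ 2.3)
    (hA0 : 0 ≤ A) (_ : A ≤ π) (hlaw : z ^ 2 = d1 ^ 2 + d2 ^ 2 - 2 * d1 * d2 * cos A)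
    (hβ1 : |β1| ≤ 0.35) (hβ2 : |β2| ≤ 0.35) (hb1 : d1 < 2.1284 ∨ β1 = 0)
    (hb2 : d2 < 2.1284 ∨ β2 = 0) (hα : A - |β1| - |β2| ≤ α) (hαpi : α ≤ π)
    (hh0 : 0 ≤ h) (hh1 : h ≤ d1 * cos β1 - 1) (hh2 : h ≤ (d1 * cos β1 + 0.0642) / 2) :
    h * cos α ≤ 1 := by
  obtain ⟨hC1, hC2, hC3, hC4, hC5⟩ := cosA_bounds d1 d2 z (cos A) hd1 hd2 hz hd1' hd2' hz' hlaw
  have hpi : (3:ℝ) < π := pi_gt_three
  have hA8994 : 0.8994 ≤ A := angle_ge A 0.8994 0.622 hA0 (by linarith) hC2 cos_08994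
  by_cases hneg : cos α ≤ 0
  · nlinarith
  push Not at hneg
  have hcosb : cos β1 ≤ 1 := cos_le_one _
  rcases hb1 with hb1 | hb1
  · rcases hb2 with hb2 | hb2
    · -- both close
      have hA978 : 0.978 ≤ A := angle_ge A 0.978 0.55852 hA0 (by linarith) (hC5 hb1 hb2) cos_0978
      have h1 : 0.628 - |β1| ≤ α := by linarith
      have h2 : cos α ≤ cos (0.628 - |β1|) :=
        cos_le_cos_of_nonneg_of_le_pi (by linarith) hαpi h1
      have h3 : h ≤ 2.1284 * cos |β1| - 1 := by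
        rw [cos_abs]
        have : 0 ≤ cos β1 := by
          rw [← cos_abs]
          exact cos_nonneg_of_neg_pi_div_two_le_of_le (by linarith [abs_nonneg β1]) (by linarith)
        nlinarith
      have h4 := hcos_close |β1| (abs_nonneg _) hβ1
      calc h * cos α ≤ (2.1284 * cos |β1| - 1) * cos (0.628 - |β1|) := by
            apply mul_le_mul h3 h2 hneg.le; linarith
        _ ≤ 1 := h4
    · rw [hb2, abs_zero] at hα
      have h1 : 0.5494 ≤ α := by linarith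
      have h2 : cos α ≤ cos 0.5494 := cos_le_cos_of_nonneg_of_le_pi (by norm_num) hαpi h1
      have h3 := cos_05494
      have h4 : h ≤ 1.0963 := by nlinarith
      nlinarith
  · rw [hb1, abs_zero] at hα
    rw [hb1, cos_zero] at hh2
    have h4 : h ≤ 1.1821 := by linarith
    rcases hb2 with hb2 | hb2
    · have hA934 : 0.934 ≤ A := angle_ge A 0.934 0.59446 hA0 (by linarith) (hC4 hb2) cos_0934
      have h1 : 0.584 ≤ α := by linarith
      have h2 : cos α ≤ cos 0.584 := cos_le_cos_of_nonneg_of_le_pi (by norm_num) hαpi h1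
      have h3 := cos_0584
      nlinarith
    · rw [hb2, abs_zero] at hα
      have h1 : 0.8994 ≤ α := by linarith
      have h2 : cos α ≤ cos 0.584 := cos_le_cos_of_nonneg_of_le_pi (by norm_num) hαpi (by linarith)
      have h3 := cos_0584
      nlinarith

end Pool.Agent.W259.Nona
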