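import Pool.Agent.W259.Nona.TypeI

set_option autoImplicit false

open Real Set

namespace Pool.Agent.W259.Nona

theorem angle_le (A a C : ℝ) (ha0 : 0 ≤ a) (hA : A ≤ π) (h1 : C ≤ cos A)
    (h2 : cos a ≤ C) : A ≤ a := by
  by_contra hc
  push Not at hc
  have := cos_lt_cos_of_nonneg_of_le_pi ha0 hA hc
  linarith

/-- everything about one corner of a triangle with short sides -/
theorem corner_full (hC : CornerStmt) (hM : MonoStmt) (t d1 d2 z A α β1 β2 h k : ℝ)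
    (hd1 : 2 ≤ d1) (hd1' : d1 ≤ 2.3)
    (hd2 : 2 ≤ d2) (hd2' : d2 ≤ 2.3) (hz : 2 ≤ z) (hz' : z ≤ 2.3)
    (hA0 : 0 ≤ A) (hA1 : A ≤ π) (hlaw : z ^ 2 = d1 ^ 2 + d2 ^ 2 - 2 * d1 * d2 * cos A)
    (hβ1 : |β1| ≤ 0.35) (hβ2 : |β2| ≤ 0.35) (hb1 : d1 < 2.1284 ∨ β1 = 0)
    (hb2 : d2 < 2.1284 ∨ β2 = 0) (hα : A - |β1| - |β2| ≤ α) (hα' : α ≤ A + |β1| + |β2|)
    (hsh : supp t ≤ h) (hsk : supp (t + α) ≤ k)
    (hh1 : h ≤ d1 * cos β1 - 1) (hh2 : h ≤ (d1 * cos β1 + 0.0642) / 2)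
    (hk1 : k ≤ d2 * cos β2 - 1) (hk2 : k ≤ (d2 * cos β2 + 0.0642) / 2) :
    9 * tan (π / 9) / (2 * π) * α + psi (t + α) - psi t + GG α ≤ wed h k α ∧ 0 < α ∧ α ≤ 1.93 ∧
      0 < sin α := by
  obtain ⟨hC1, hC2, -, -, -⟩ := cosA_bounds d1 d2 z (cos A) hd1 hd2 hz hd1' hd2' hz' hlaw
  have hpi : (3:ℝ) < π := pi_gt_three
  have hA8994 : 0.8994 ≤ A := angle_ge A 0.8994 0.622 hA0 (by linarith) hC2 cos_08994
  have hA12253 : A ≤ 1.2253 := angle_le A 1.2253 0.33874 (by norm_num) hA1 hC1 cos_12253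
  have hα0 : 0 < α := by linarith
  have hα1 : α ≤ 1.93 := by linarith
  have hs1 := supp_ge_one t
  have hs2 := supp_ge_one (t + α)
  have e1 : h * cos α ≤ 1 := hcos_le_one h d1 d2 z A α β1 β2 hd1 hd1' hd2 hd2' hz hz' hA0 hA1 hlaw
    hβ1 hβ2 hb1 hb2 hα (by linarith) (by linarith) hh1 hh2
  have e2 : k * cos α ≤ 1 := hcos_le_one k d2 d1 z A α β2 β1 hd2 hd2' hd1 hd1' hz hz' hA0 hA1
    (by rw [hlaw]; ring) hβ2 hβ1 hb2 hb1 (by linarith) (by linarith) (by linarith) hk1 hk2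
  refine ⟨(hC t α hα0 hα1).trans (hM h k (supp t) (supp (t + α)) α hα0 (by linarith) hs1 hs2 hsh hsk
    e1 e2), hα0, hα1, sin_pos_of_pos_of_lt_pi hα0 (by linarith)⟩


theorem typeI (hC : CornerStmt) (hN : NodeStmt) (hI : IdentStmt) (hM : MonoStmt) :
    TypeIStmt := by
  intro u1 u2 v1 v2 ω1 ω2 ω3 φ1 φ2 φ3 hcr hu hv hw H1 H2 H3
  have hpi := pi_pos
  -- polar forms
  have hu0 : 0 < u1 ^ 2 + u2 ^ 2 := by
    by_contra hc
    have h1 : u1 ^ 2 = 0 := by nlinarith [sq_nonneg u1, sq_nonneg u2]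
    have h2 : u2 ^ 2 = 0 := by nlinarith [sq_nonneg u1, sq_nonneg u2]
    have h1' : u1 = 0 := by simpa using h1
    have h2' : u2 = 0 := by simpa using h2
    rw [h1', h2'] at hcr; norm_num at hcr
  have hv0 : 0 < v1 ^ 2 + v2 ^ 2 := by
    by_contra hc
    have h1 : v1 ^ 2 = 0 := by nlinarith [sq_nonneg v1, sq_nonneg v2]
    have h2 : v2 ^ 2 = 0 := by nlinarith [sq_nonneg v1, sq_nonneg v2]
    have h1' : v1 = 0 := by simpa using h1
    have h2' : v2 = 0 := by simpa using h2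
    rw [h1', h2'] at hcr; norm_num at hcr
  have hw0 : 0 < (-(u1 + v1)) ^ 2 + (-(u2 + v2)) ^ 2 := by
    by_contra hc
    have h1 : (-(u1 + v1)) ^ 2 = 0 := by nlinarith [sq_nonneg (-(u1 + v1)), sq_nonneg (-(u2 + v2))]
    have h2 : (-(u2 + v2)) ^ 2 = 0 := by nlinarith [sq_nonneg (-(u1 + v1)), sq_nonneg (-(u2 + v2))]
    have h1' : -(u1 + v1) = 0 := by simpa using h1
    have h2' : -(u2 + v2) = 0 := by simpa using h2
    have h3 : v1 = -u1 := by linarith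
    have h4 : v2 = -u2 := by linarith
    rw [h3, h4] at hcr; nlinarith
  obtain ⟨d1, δ1, hd1, hd1s, hu1, hu2⟩ := exists_polar u1 u2 hu0
  obtain ⟨d2, δ2o, hd2, hd2s, hv1o, hv2o⟩ := exists_polar v1 v2 hv0
  obtain ⟨d3, δ3o, hd3, hd3s, hw1o, hw2o⟩ := exists_polar (-(u1 + v1)) (-(u2 + v2)) hw0
  -- reduce δ2
  have hs21 : 0 < sin (δ2o - δ1) := by
    have : u1 * v2 - u2 * v1 = d1 * d2 * sin (δ2o - δ1) := by
      rw [hu1, hu2, hv1o, hv2o, sin_sub]; ring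
    rw [this] at hcr
    exact (mul_pos_iff_of_pos_left (mul_pos hd1 hd2)).1 hcr
  obtain ⟨k2, hk2a, hk2b⟩ := exists_reduce_sin _ hs21
  set δ2 := δ2o + 2 * π * k2 with hδ2
  have hv1 : v1 = d2 * cos δ2 := by
    rw [hv1o, hδ2, show δ2o + 2 * π * k2 = δ2o + k2 * (2 * π) by ring, cos_add_int_mul_two_pi]
  have hv2 : v2 = d2 * sin δ2 := by
    rw [hv2o, hδ2, show δ2o + 2 * π * k2 = δ2o + k2 * (2 * π) by ring, sin_add_int_mul_two_pi]
  have hs32 : 0 < sin (δ3o - δ2) := by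
    have : u1 * v2 - u2 * v1 = d2 * d3 * sin (δ3o - δ2) := by
      have e : u1 * v2 - u2 * v1 = v1 * (-(u2 + v2)) - v2 * (-(u1 + v1)) := by ring
      rw [e, hw1o, hw2o, hv1, hv2, sin_sub]; ring
    rw [this] at hcr
    exact (mul_pos_iff_of_pos_left (mul_pos hd2 hd3)).1 hcr
  obtain ⟨k3, hk3a, hk3b⟩ := exists_reduce_sin _ hs32
  set δ3 := δ3o + 2 * π * k3 with hδ3
  have hw1 : -(u1 + v1) = d3 * cos δ3 := by
    rw [hw1o, hδ3, show δ3o + 2 * π * k3 = δ3o + k3 * (2 * π) by ring, cos_add_int_mul_two_pi]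
  have hw2 : -(u2 + v2) = d3 * sin δ3 := by
    rw [hw2o, hδ3, show δ3o + 2 * π * k3 = δ3o + k3 * (2 * π) by ring, sin_add_int_mul_two_pi]
  have hs13 : 0 < sin (δ1 - δ3) := by
    have : u1 * v2 - u2 * v1 = d3 * d1 * sin (δ1 - δ3) := by
      have e : u1 * v2 - u2 * v1 = (-(u1 + v1)) * u2 - (-(u2 + v2)) * u1 := by ring
      rw [e, hw1, hw2, hu1, hu2, sin_sub]; ring
    rw [this] at hcr
    exact (mul_pos_iff_of_pos_left (mul_pos hd3 hd1)).1 hcr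
  -- the angles of the triangle
  obtain ⟨B2, hB2⟩ : ∃ B2, B2 = δ2 - δ1 := ⟨_, rfl⟩
  obtain ⟨B3, hB3⟩ : ∃ B3, B3 = δ3 - δ2 := ⟨_, rfl⟩
  have hB2a : 0 < B2 := by rw [hB2, hδ2]; linarith
  have hB2b : B2 < π := by rw [hB2, hδ2]; linarith
  have hB3a : 0 < B3 := by rw [hB3, hδ3]; linarith
  have hB3b : B3 < π := by rw [hB3, hδ3]; linarith
  have hB23 : π < B2 + B3 := by
    by_contra hc
    push Not at hc
    have : 0 ≤ sin (δ3 - δ1) := sin_nonneg_of_nonneg_of_le_pi (by linarith) (by linarith)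
    have h2 : sin (δ1 - δ3) = -sin (δ3 - δ1) := by rw [← sin_neg]; ring_nf
    linarith
  obtain ⟨A1, hA1⟩ : ∃ A1, A1 = B2 + B3 - π := ⟨_, rfl⟩
  obtain ⟨A2, hA2⟩ : ∃ A2, A2 = π - B2 := ⟨_, rfl⟩
  obtain ⟨A3, hA3⟩ : ∃ A3, A3 = π - B3 := ⟨_, rfl⟩
  -- betas
  have H1' : Adm (d1 * cos δ1) (d1 * sin δ1) φ1 ω1 ω2 := by rw [← hu1, ← hu2]; exact H1
  have H2' : Adm (d2 * cos δ2) (d2 * sin δ2) φ2 ω2 ω3 := by rw [← hv1, ← hv2]; exact H2
  have H3' : Adm (d3 * cos δ3) (d3 * sin δ3) φ3 ω3 ω1 := by rw [← hw1, ← hw2]; exact H3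
  obtain ⟨β1, m1, hφ1, hβ1, hb1, hsum1⟩ := exists_beta d1 δ1 φ1 ω1 ω2 hd1 H1'
  obtain ⟨β2, m2, hφ2, hβ2, hb2, hsum2⟩ := exists_beta d2 δ2 φ2 ω2 ω3 hd2 H2'
  obtain ⟨β3, m3, hφ3, hβ3, hb3, hsum3⟩ := exists_beta d3 δ3 φ3 ω3 ω1 hd3 H3'
  obtain ⟨s12, hs12⟩ : ∃ s, s = supp (φ1 - ω1) := ⟨_, rfl⟩
  obtain ⟨s21, hs21'⟩ : ∃ s, s = supp (φ1 + π - ω2) := ⟨_, rfl⟩
  obtain ⟨s23, hs23⟩ : ∃ s, s = supp (φ2 - ω2) := ⟨_, rfl⟩
  obtain ⟨s32, hs32'⟩ : ∃ s, s = supp (φ2 + π - ω3) := ⟨_, rfl⟩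
  obtain ⟨s31, hs31⟩ : ∃ s, s = supp (φ3 - ω3) := ⟨_, rfl⟩
  obtain ⟨s13, hs13'⟩ : ∃ s, s = supp (φ3 + π - ω1) := ⟨_, rfl⟩
  rw [← hs12, ← hs21'] at hsum1
  rw [← hs23, ← hs32'] at hsum2
  rw [← hs31, ← hs13'] at hsum3
  have b12 : 1 ≤ s12 := by rw [hs12]; exact supp_ge_one _
  have b21 : 1 ≤ s21 := by rw [hs21']; exact supp_ge_one _
  have b23 : 1 ≤ s23 := by rw [hs23]; exact supp_ge_one _
  have b32 : 1 ≤ s32 := by rw [hs32']; exact supp_ge_one _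
  have b31 : 1 ≤ s31 := by rw [hs31]; exact supp_ge_one _
  have b13 : 1 ≤ s13 := by rw [hs13']; exact supp_ge_one _
  have t12 : s12 < 1.0641778 := by rw [hs12]; exact supp_lt _
  have t21 : s21 < 1.0641778 := by rw [hs21']; exact supp_lt _
  have t23 : s23 < 1.0641778 := by rw [hs23]; exact supp_lt _
  have t32 : s32 < 1.0641778 := by rw [hs32']; exact supp_lt _
  have t31 : s31 < 1.0641778 := by rw [hs31]; exact supp_lt _
  have t13 : s13 < 1.0641778 := by rw [hs13']; exact supp_lt _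
  have hc1 : cos β1 ≤ 1 := cos_le_one _
  have hc2 : cos β2 ≤ 1 := cos_le_one _
  have hc3 : cos β3 ≤ 1 := cos_le_one _
  have l1 : 2 ≤ d1 := by
    have := mul_le_of_le_one_right hd1.le hc1
    linarith only [this, hsum1, b12, b21]
  have l2 : 2 ≤ d2 := by
    have := mul_le_of_le_one_right hd2.le hc2
    linarith only [this, hsum2, b23, b32]
  have l3 : 2 ≤ d3 := by
    have := mul_le_of_le_one_right hd3.le hc3
    linarith only [this, hsum3, b31, b13]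
  have r1 : d1 ≤ 2.3 := by
    apply le_of_sq_le_sq _ (by norm_num); rw [hd1s]; exact hu
  have r2 : d2 ≤ 2.3 := by
    apply le_of_sq_le_sq _ (by norm_num); rw [hd2s]; exact hv
  have r3 : d3 ≤ 2.3 := by
    apply le_of_sq_le_sq _ (by norm_num); rw [hd3s]
    have e : (-(u1 + v1)) ^ 2 + (-(u2 + v2)) ^ 2 = (u1 + v1) ^ 2 + (u2 + v2) ^ 2 := by ring
    rw [e]; exact hw
  -- laws of cosines
  have trig : ∀ x y : ℝ, cos x * cos y + sin x * sin y = cos (x - y) := fun x y => (cos_sub x y).symm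
  have law2 : d3 ^ 2 = d1 ^ 2 + d2 ^ 2 - 2 * d1 * d2 * cos A2 := by
    have e1 : cos A2 = -cos (δ2 - δ1) := by rw [hA2, cos_pi_sub, hB2]
    rw [e1, hd3s, hd1s, hd2s, ← trig]
    have : (-(u1 + v1)) ^ 2 + (-(u2 + v2)) ^ 2
        = u1 ^ 2 + u2 ^ 2 + (v1 ^ 2 + v2 ^ 2) + 2 * (u1 * v1 + u2 * v2) := by ring
    rw [this]
    have : u1 * v1 + u2 * v2 = d1 * d2 * (cos δ2 * cos δ1 + sin δ2 * sin δ1) := by
      rw [hu1, hu2, hv1, hv2]; ring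
    rw [this]; ring
  have law3 : d1 ^ 2 = d2 ^ 2 + d3 ^ 2 - 2 * d2 * d3 * cos A3 := by
    have e1 : cos A3 = -cos (δ3 - δ2) := by rw [hA3, cos_pi_sub, hB3]
    rw [e1, hd3s, hd1s, hd2s, ← trig]
    have : v1 * (-(u1 + v1)) + v2 * (-(u2 + v2)) = d2 * d3 * (cos δ3 * cos δ2 + sin δ3 * sin δ2) := by
      rw [hw1, hw2, hv1, hv2]; ring
    linear_combination 2 * this
  have law1 : d2 ^ 2 = d3 ^ 2 + d1 ^ 2 - 2 * d3 * d1 * cos A1 := by
    have e1 : cos A1 = -cos (δ1 - δ3) := by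
      have : A1 = -(δ1 - δ3) - π := by rw [hA1, hB2, hB3]; ring
      rw [this, cos_sub_pi, cos_neg]
    rw [e1, hd3s, hd1s, hd2s, ← trig]
    have : u1 * (-(u1 + v1)) + u2 * (-(u2 + v2)) = d3 * d1 * (cos δ1 * cos δ3 + sin δ1 * sin δ3) := by
      rw [hw1, hw2, hu1, hu2]; ring
    linear_combination 2 * this
  -- corner angles
  obtain ⟨α1, hα1⟩ : ∃ α1, α1 = A1 + β3 - β1 := ⟨_, rfl⟩
  obtain ⟨α2, hα2⟩ : ∃ α2, α2 = A2 + β1 - β2 := ⟨_, rfl⟩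
  obtain ⟨α3, hα3⟩ : ∃ α3, α3 = A3 + β2 - β3 := ⟨_, rfl⟩
  have hαsum : α1 + α2 + α3 = π := by rw [hα1, hα2, hα3, hA1, hA2, hA3]; ring
  have p1 := neg_abs_le β1
  have p2 := neg_abs_le β2
  have p3 := neg_abs_le β3
  have q1 := le_abs_self β1
  have q2 := le_abs_self β2
  have q3 := le_abs_self β3
  -- directions seen from the other side
  have f1 : supp (φ1 - ω1 + α1) = s13 := by
    have : φ1 - ω1 + α1 = φ3 + π - ω1 + 2 * π * ((m1 - m3 - 1 : ℤ) : ℝ) := by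
      rw [hα1, hA1, hB2, hB3]; push_cast; linarith
    rw [this, supp_add_two_pi_int, hs13']
  have g1 : psi (φ1 - ω1 + α1) = psi (φ3 + π - ω1) := by
    have : φ1 - ω1 + α1 = φ3 + π - ω1 + 2 * π * ((m1 - m3 - 1 : ℤ) : ℝ) := by
      rw [hα1, hA1, hB2, hB3]; push_cast; linarith
    rw [this, psi_add_two_pi_int]
  have f2 : supp (φ2 - ω2 + α2) = s21 := by
    have : φ2 - ω2 + α2 = φ1 + π - ω2 + 2 * π * ((m2 - m1 : ℤ) : ℝ) := by
      rw [hα2, hA2, hB2]; push_cast; linarith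
    rw [this, supp_add_two_pi_int, hs21']
  have g2 : psi (φ2 - ω2 + α2) = psi (φ1 + π - ω2) := by
    have : φ2 - ω2 + α2 = φ1 + π - ω2 + 2 * π * ((m2 - m1 : ℤ) : ℝ) := by
      rw [hα2, hA2, hB2]; push_cast; linarith
    rw [this, psi_add_two_pi_int]
  have f3 : supp (φ3 - ω3 + α3) = s32 := by
    have : φ3 - ω3 + α3 = φ2 + π - ω3 + 2 * π * ((m3 - m2 : ℤ) : ℝ) := by
      rw [hα3, hA3, hB3]; push_cast; linarith
    rw [this, supp_add_two_pi_int, hs32']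
  have g3 : psi (φ3 - ω3 + α3) = psi (φ2 + π - ω3) := by
    have : φ3 - ω3 + α3 = φ2 + π - ω3 + 2 * π * ((m3 - m2 : ℤ) : ℝ) := by
      rw [hα3, hA3, hB3]; push_cast; linarith
    rw [this, psi_add_two_pi_int]
  -- heights
  obtain ⟨a, ha⟩ : ∃ a, a = (d1 * cos β1 + s12 - s21) / 2 := ⟨_, rfl⟩
  obtain ⟨b, hb⟩ : ∃ b, b = (d1 * cos β1 + s21 - s12) / 2 := ⟨_, rfl⟩
  obtain ⟨c, hc⟩ : ∃ c, c = (d2 * cos β2 + s23 - s32) / 2 := ⟨_, rfl⟩
  obtain ⟨d, hd⟩ : ∃ d, d = (d2 * cos β2 + s32 - s23) / 2 := ⟨_, rfl⟩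
  obtain ⟨e, he⟩ : ∃ e, e = (d3 * cos β3 + s31 - s13) / 2 := ⟨_, rfl⟩
  obtain ⟨f, hf⟩ : ∃ f, f = (d3 * cos β3 + s13 - s31) / 2 := ⟨_, rfl⟩
  obtain ⟨K1, α1pos, α1le, sα1⟩ := corner_full hC hM (φ1 - ω1) d1 d3 d2 A1 α1 β1 β3 a f
    l1 r1 l3 r3 l2 r2 (by linarith) (by linarith) (by rw [law1]; ring) hβ1 hβ3 hb1 hb3
    (by linarith) (by linarith) (by rw [← hs12]; linarith) (by rw [f1]; linarith)
    (by linarith) (by linarith) (by linarith) (by linarith)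
  obtain ⟨K2, α2pos, α2le, sα2⟩ := corner_full hC hM (φ2 - ω2) d2 d1 d3 A2 α2 β2 β1 c b
    l2 r2 l1 r1 l3 r3 (by linarith) (by linarith) (by rw [law2]; ring) hβ2 hβ1 hb2 hb1
    (by linarith) (by linarith) (by rw [← hs23]; linarith) (by rw [f2]; linarith)
    (by linarith) (by linarith) (by linarith) (by linarith)
  obtain ⟨K3, α3pos, α3le, sα3⟩ := corner_full hC hM (φ3 - ω3) d3 d2 d1 A3 α3 β3 β2 e d
    l3 r3 l2 r2 l1 r1 (by linarith) (by linarith) (by rw [law3]; ring) hβ3 hβ2 hb3 hb2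
    (by linarith) (by linarith) (by rw [← hs31]; linarith) (by rw [f3]; linarith)
    (by linarith) (by linarith) (by linarith) (by linarith)
  rw [g1] at K1
  rw [g2] at K2
  rw [g3] at K3
  have hnode := hN α1 α2 α3 α1pos α2pos α3pos α1le α2le α3le hαsum
  -- sines and cosines of the differences of normals
  have S1 : cos φ3 * sin φ1 - sin φ3 * cos φ1 = sin α1 := by
    have e1 : cos φ3 * sin φ1 - sin φ3 * cos φ1 = sin (φ1 - φ3) := by rw [sin_sub]; ring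
    have e2 : φ1 - φ3 = -π - α1 + ((m1 - m3 : ℤ) : ℝ) * (2 * π) := by
      rw [hφ1, hφ3, hα1, hA1, hB2, hB3]; push_cast; ring
    rw [e1, e2, sin_add_int_mul_two_pi, show -π - α1 = -(α1 + π) by ring, sin_neg, sin_add_pi]
    ring
  have C1 : cos φ1 * cos φ3 + sin φ1 * sin φ3 = -cos α1 := by
    rw [trig]
    have e2 : φ1 - φ3 = -π - α1 + ((m1 - m3 : ℤ) : ℝ) * (2 * π) := by
      rw [hφ1, hφ3, hα1, hA1, hB2, hB3]; push_cast; ring
    rw [e2, cos_add_int_mul_two_pi, show -π - α1 = -(α1 + π) by ring, cos_neg, cos_add_pi]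
  have S2 : cos φ1 * sin φ2 - sin φ1 * cos φ2 = sin α2 := by
    have e1 : cos φ1 * sin φ2 - sin φ1 * cos φ2 = sin (φ2 - φ1) := by rw [sin_sub]; ring
    have e2 : φ2 - φ1 = π - α2 + ((m2 - m1 : ℤ) : ℝ) * (2 * π) := by
      rw [hφ1, hφ2, hα2, hA2, hB2]; push_cast; ring
    rw [e1, e2, sin_add_int_mul_two_pi, sin_pi_sub]
  have C2 : cos φ1 * cos φ2 + sin φ1 * sin φ2 = -cos α2 := by
    rw [trig]
    have e2 : φ1 - φ2 = -(π - α2) + ((m1 - m2 : ℤ) : ℝ) * (2 * π) := by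
      rw [hφ1, hφ2, hα2, hA2, hB2]; push_cast; ring
    rw [e2, cos_add_int_mul_two_pi, cos_neg, cos_pi_sub]
  have S3 : cos φ2 * sin φ3 - sin φ2 * cos φ3 = sin α3 := by
    have e1 : cos φ2 * sin φ3 - sin φ2 * cos φ3 = sin (φ3 - φ2) := by rw [sin_sub]; ring
    have e2 : φ3 - φ2 = π - α3 + ((m3 - m2 : ℤ) : ℝ) * (2 * π) := by
      rw [hφ2, hφ3, hα3, hA3, hB3]; push_cast; ring
    rw [e1, e2, sin_add_int_mul_two_pi, sin_pi_sub]
  have C3 : cos φ2 * cos φ3 + sin φ2 * sin φ3 = -cos α3 := by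
    rw [trig]
    have e2 : φ2 - φ3 = -(π - α3) + ((m2 - m3 : ℤ) : ℝ) * (2 * π) := by
      rw [hφ2, hφ3, hα3, hA3, hB3]; push_cast; ring
    rw [e2, cos_add_int_mul_two_pi, cos_neg, cos_pi_sub]
  -- dot products
  have n1 : cos φ1 * u1 + sin φ1 * u2 = d1 * cos β1 := by
    have e1 : cos φ1 * u1 + sin φ1 * u2 = d1 * (cos φ1 * cos δ1 + sin φ1 * sin δ1) := by
      rw [hu1, hu2]; ring
    rw [e1, trig, hφ1, show δ1 + β1 + 2 * π * (m1:ℝ) - δ1 = β1 + m1 * (2 * π) by ring,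
      cos_add_int_mul_two_pi]
  have n2 : cos φ2 * v1 + sin φ2 * v2 = d2 * cos β2 := by
    have e1 : cos φ2 * v1 + sin φ2 * v2 = d2 * (cos φ2 * cos δ2 + sin φ2 * sin δ2) := by
      rw [hv1, hv2]; ring
    rw [e1, trig, hφ2, show δ2 + β2 + 2 * π * (m2:ℝ) - δ2 = β2 + m2 * (2 * π) by ring,
      cos_add_int_mul_two_pi]
  have n3 : -(cos φ3 * (u1 + v1) + sin φ3 * (u2 + v2)) = d3 * cos β3 := by
    have e1 : -(cos φ3 * (u1 + v1) + sin φ3 * (u2 + v2))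
        = d3 * (cos φ3 * cos δ3 + sin φ3 * sin δ3) := by
      linear_combination (cos φ3) * hw1 + (sin φ3) * hw2
    rw [e1, trig, hφ3, show δ3 + β3 + 2 * π * (m3:ℝ) - δ3 = β3 + m3 * (2 * π) by ring,
      cos_add_int_mul_two_pi]
  have hid := hI (cos φ1) (sin φ1) (cos φ2) (sin φ2) (cos φ3) (sin φ3) u1 u2 v1 v2 a b c d e f
    (by have := sin_sq_add_cos_sq φ1; linarith) (by have := sin_sq_add_cos_sq φ2; linarith)
    (by have := sin_sq_add_cos_sq φ3; linarith)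
    (by rw [S1]; exact sα1.ne') (by rw [S2]; exact sα2.ne') (by rw [S3]; exact sα3.ne')
    (by rw [n1]; linarith) (by rw [n2]; linarith) (by rw [n3]; linarith)
  rw [S1, S2, S3, C1, C2, C3] at hid
  have hlast : 0 ≤ (a * sin α3 + (cos φ2 * u1 + sin φ2 * u2 + c) * sin α1
      + (cos φ3 * (u1 + v1) + sin φ3 * (u2 + v2) + e) * sin α2) ^ 2
      / (2 * sin α1 * sin α2 * sin α3) := by positivity
  have w1 : wed a f α1 = (2 * a * f + (a ^ 2 + f ^ 2) * -cos α1) / (2 * sin α1) := by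
    unfold wed; ring
  have w2 : wed c b α2 = (2 * b * c + (b ^ 2 + c ^ 2) * -cos α2) / (2 * sin α2) := by
    unfold wed; ring
  have w3 : wed e d α3 = (2 * d * e + (d ^ 2 + e ^ 2) * -cos α3) / (2 * sin α3) := by
    unfold wed; ring
  rw [← w1, ← w2, ← w3] at hid
  have hA' : 9 * tan (π / 9) / (2 * π) * α1 + 9 * tan (π / 9) / (2 * π) * α2
      + 9 * tan (π / 9) / (2 * π) * α3 = 9 * tan (π / 9) / 2 := by
    rw [← mul_add, ← mul_add, hαsum]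
    field_simp
  have hab : a - b = s12 - s21 := by rw [ha, hb]; ring
  have hcd : c - d = s23 - s32 := by rw [hc, hd]; ring
  have hef : e - f = s31 - s13 := by rw [he, hf]; ring
  rw [hab, hcd, hef] at hid
  unfold Esh mu
  rw [← hs12, ← hs21', ← hs23, ← hs32', ← hs31, ← hs13', hid]
  have k1 : (u1 * sin φ1 - u2 * cos φ1) * (s12 - s21) / 2
      + (v1 * sin φ2 - v2 * cos φ2) * (s23 - s32) / 2
      + (-(u1 + v1) * sin φ3 - -(u2 + v2) * cos φ3) * (s31 - s13) / 2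
      = ((u1 * sin φ1 - u2 * cos φ1) * (s12 - s21) + (v1 * sin φ2 - v2 * cos φ2) * (s23 - s32)
      - ((u1 + v1) * sin φ3 - (u2 + v2) * cos φ3) * (s31 - s13)) / 2 := by ring
  linarith

end Pool.Agent.W259.Nona
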